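import Pool.Agent.J6H84.TEP.Numeric

/-!
# The final form of the estimates
-/

set_option autoImplicit false

namespace Pool.Agent.J6H84.TEP

theorem real_estimate {h k a : ℕ} {l t R : ℝ} (hh : 1 ≤ h) (hk : 2 ≤ k) (hl : l = Real.logb 2 k)
    (ht : t = Real.logb 2 (1 + l)) (hR : R = √(h * l * t)) (ha : a = ⌊√(l * t / h)⌋₊) :
    (((k ^ 17 * (Nat.log 2 k / (a + 1) + 1) ^ (3 * (Nat.log 2 k / (a + 1) + 1)) *
      2 ^ ((12 * a + 38) * h) : ℕ)) : ℝ) ≤ (k : ℝ) ^ 20 * 2 ^ (38 * h + 15 * R) := by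
  obtain ⟨L, hL⟩ : ∃ L, L = Nat.log 2 k := ⟨_, rfl⟩
  obtain ⟨m, hm⟩ : ∃ m, m = L / (a + 1) + 1 := ⟨_, rfl⟩
  rw [← hL, ← hm]
  have hk2 : (2 : ℝ) ≤ k := by exact_mod_cast hk
  have hk0 : (0 : ℝ) < k := by linarith
  have hh1 : (1 : ℝ) ≤ h := by exact_mod_cast hh
  have hh0 : (0 : ℝ) < h := by linarith
  have hkl : (k : ℝ) = 2 ^ l := by
    rw [hl, Real.rpow_logb (by norm_num) (by norm_num) hk0]
  have hl1 : 1 ≤ l := by
    rw [hl, Real.le_logb_iff_rpow_le (by norm_num) hk0, Real.rpow_one]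
    exact hk2
  have ht1 : 1 ≤ t := by
    rw [ht, Real.le_logb_iff_rpow_le (by norm_num) (by linarith), Real.rpow_one]
    linarith
  have htl : t ≤ l := by
    rw [ht, Real.logb_le_iff_le_rpow (by norm_num) (by linarith)]
    have h1 := one_add_mul_self_le_rpow_one_add (show (-1 : ℝ) ≤ 1 by norm_num) hl1
    rw [mul_one] at h1
    have h2 : (1 : ℝ) + 1 = 2 := by norm_num
    rwa [h2] at h1
  have hlt : 0 < l * t := by nlinarith
  have hq : 0 < √(l * t / h) := Real.sqrt_pos.2 (by positivity)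
  have hR1 : h * √(l * t / h) = R := by
    rw [hR]
    have h1 : (h : ℝ) * l * t = h ^ 2 * (l * t / h) := by
      field_simp
    rw [h1, Real.sqrt_mul (by positivity), Real.sqrt_sq hh0.le]
  have hR2 : l * t = √(l * t / h) * R := by
    rw [← hR1]
    have h1 : √(l * t / h) * (h * √(l * t / h)) = h * (√(l * t / h) * √(l * t / h)) := by ring
    rw [h1, Real.mul_self_sqrt (by positivity)]
    field_simp
  have hR0 : 0 ≤ R := by
    rw [hR]
    exact Real.sqrt_nonneg _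
  have ha1 : (a : ℝ) ≤ √(l * t / h) := by
    rw [ha]
    exact Nat.floor_le hq.le
  have ha2 : √(l * t / h) ≤ a + 1 := by
    rw [ha]
    exact (Nat.lt_floor_add_one _).le
  have hah : (a : ℝ) * h ≤ R := by
    rw [← hR1, mul_comm]
    exact mul_le_mul_of_nonneg_left ha1 hh0.le
  have hL1 : (L : ℝ) ≤ l := by
    rw [hl, Real.le_logb_iff_rpow_le (by norm_num) hk0, Real.rpow_natCast, hL]
    exact_mod_cast Nat.pow_log_le_self 2 (by omega)
  have hL0 : (0 : ℝ) ≤ L := Nat.cast_nonneg _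
  have ha0 : (0 : ℝ) ≤ a := Nat.cast_nonneg _
  have hm1 : (m : ℝ) ≤ l / (a + 1) + 1 := by
    rw [hm]
    push_cast
    have h1 : ((L / (a + 1) : ℕ) : ℝ) ≤ (L : ℝ) / ((a + 1 : ℕ) : ℝ) := Nat.cast_div_le
    push_cast at h1
    have h2 : (L : ℝ) / (a + 1) ≤ l / (a + 1) := div_le_div_of_nonneg_right hL1 (by linarith)
    linarith
  have hm0 : (1 : ℝ) ≤ m := by
    rw [hm]
    push_cast
    have : (0 : ℝ) ≤ ((L / (a + 1) : ℕ) : ℝ) := Nat.cast_nonneg _
    linarith
  have hml : (m : ℝ) ≤ 1 + l := by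
    have : l / (a + 1) ≤ l := div_le_self (by linarith) (by linarith)
    linarith
  have hmt : (m : ℝ) ≤ 2 ^ t := by
    rw [ht, Real.rpow_logb (by norm_num) (by norm_num) (by linarith)]
    exact hml
  have hmm : (m : ℝ) * t ≤ R + l := by
    have h1 : (m : ℝ) * t ≤ (l / (a + 1) + 1) * t := mul_le_mul_of_nonneg_right hm1 (by linarith)
    have h2 : l / (a + 1) * t ≤ R := by
      rw [div_mul_eq_mul_div, div_le_iff₀ (by linarith), hR2, mul_comm]
      exact mul_le_mul_of_nonneg_left ha2 hR0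
    linarith
  have hpow : ((m : ℝ) ^ (3 * m)) ≤ 2 ^ (3 * R + 3 * l) := by
    calc ((m : ℝ) ^ (3 * m)) ≤ ((2 : ℝ) ^ t) ^ (3 * m) := pow_le_pow_left₀ (by linarith) hmt _
      _ = 2 ^ (t * (3 * m : ℕ)) := by
        rw [Real.rpow_mul_natCast (by norm_num)]
      _ ≤ 2 ^ (3 * R + 3 * l) := by
        refine Real.rpow_le_rpow_of_exponent_le (by norm_num) ?_
        push_cast
        have h1 : t * (3 * (m : ℝ)) = 3 * (m * t) := by ring
        rw [h1]
        linarith
  have hpow2 : ((2 : ℝ) ^ ((12 * a + 38) * h)) ≤ 2 ^ (12 * R + 38 * h) := by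
    rw [← Real.rpow_natCast]
    refine Real.rpow_le_rpow_of_exponent_le (by norm_num) ?_
    push_cast
    have h1 : (12 * (a : ℝ) + 38) * h = 12 * (a * h) + 38 * h := by ring
    rw [h1]
    linarith
  push_cast
  calc (k : ℝ) ^ 17 * (m : ℝ) ^ (3 * m) * 2 ^ ((12 * a + 38) * h)
      ≤ (k : ℝ) ^ 17 * 2 ^ (3 * R + 3 * l) * 2 ^ (12 * R + 38 * h) := by
        refine mul_le_mul (mul_le_mul_of_nonneg_left hpow (by positivity)) hpow2
          (by positivity) (by positivity)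
    _ = (k : ℝ) ^ 20 * 2 ^ (38 * h + 15 * R) := by
        have h1 : (k : ℝ) ^ 20 = k ^ 17 * 2 ^ (3 * l) := by
          have h2 : (2 : ℝ) ^ (3 * l) = k ^ 3 := by
            rw [hkl, ← Real.rpow_mul_natCast (by norm_num)]
            congr 1
            push_cast
            ring
          rw [h2]
          ring
        rw [h1, mul_assoc, mul_assoc, ← Real.rpow_add (by norm_num), ← Real.rpow_add (by norm_num)]
        congr 2
        ring

end Pool.Agent.J6H84.TEP
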