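import Mathlib

/-!
# Codes of large distance (Gilbert's bound)
-/

set_option autoImplicit false

namespace Pool.Agent.J6H84.TEP

open Finset

variable {m p g : ℕ}

/-- The number of coordinates in which two words differ. -/
def diffs (v w : Fin m → Fin p) : ℕ := #{j | v j ≠ w j}

theorem diffs_comm (v w : Fin m → Fin p) : diffs v w = diffs w v := by
  unfold diffs
  congr 1
  ext j
  simp [ne_comm]

theorem card_ball_le (hp : 1 ≤ p) (c : Fin m → Fin p) :
    #{w | diffs w c < g} ≤ 2 ^ m * p ^ (g - 1) := by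
  have h1 : ({w | diffs w c < g} : Finset (Fin m → Fin p)) ⊆
      (univ.filter fun D : Finset (Fin m) => #D ≤ g - 1).biUnion fun D =>
        Fintype.piFinset fun j => if j ∈ D then univ else {c j} := by
    intro w hw
    rw [mem_filter] at hw
    rw [mem_biUnion]
    refine ⟨univ.filter fun j => w j ≠ c j, ?_, ?_⟩
    · rw [mem_filter]
      exact ⟨mem_univ _, Nat.le_sub_one_of_lt hw.2⟩
    · rw [Fintype.mem_piFinset]
      intro j
      by_cases h : w j = c j
      · simp [h]
      · simp [h]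
  have h2 : ∀ D ∈ (univ.filter fun D : Finset (Fin m) => #D ≤ g - 1),
      #(Fintype.piFinset fun j => if j ∈ D then (univ : Finset (Fin p)) else {c j}) ≤
        p ^ (g - 1) := by
    intro D hD
    rw [mem_filter] at hD
    have h3 : #(Fintype.piFinset fun j => if j ∈ D then (univ : Finset (Fin p)) else {c j}) =
        p ^ #D := by
      rw [Fintype.card_piFinset]
      have h4 : ∀ j, #(if j ∈ D then (univ : Finset (Fin p)) else {c j}) =
          if j ∈ D then p else 1 := by
        intro j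
        split_ifs
        · simp
        · simp
      simp_rw [h4]
      rw [prod_ite_mem, univ_inter, prod_const]
    rw [h3]
    exact Nat.pow_le_pow_right hp hD.2
  calc #{w | diffs w c < g} ≤ _ := card_le_card h1
    _ ≤ ∑ D ∈ (univ.filter fun D : Finset (Fin m) => #D ≤ g - 1),
        #(Fintype.piFinset fun j => if j ∈ D then (univ : Finset (Fin p)) else {c j}) :=
        card_biUnion_le
    _ ≤ ∑ _D ∈ (univ.filter fun D : Finset (Fin m) => #D ≤ g - 1), p ^ (g - 1) :=
        sum_le_sum h2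
    _ = #(univ.filter fun D : Finset (Fin m) => #D ≤ g - 1) * p ^ (g - 1) := by
        rw [sum_const, smul_eq_mul]
    _ ≤ 2 ^ m * p ^ (g - 1) := by
        refine Nat.mul_le_mul_right _ ?_
        calc #(univ.filter fun D : Finset (Fin m) => #D ≤ g - 1) ≤ #(univ : Finset (Finset (Fin m))) :=
              card_filter_le _ _
          _ = 2 ^ m := by simp

theorem exists_code_finset (hp : 1 ≤ p) (hg : 1 ≤ g) {k : ℕ}
    (h : k * (2 ^ m * p ^ (g - 1)) ≤ p ^ m) : ∀ n ≤ k, ∃ S : Finset (Fin m → Fin p),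
    #S = n ∧ ∀ v ∈ S, ∀ w ∈ S, v ≠ w → g ≤ diffs v w
  | 0, _ => ⟨∅, rfl, by simp⟩
  | n + 1, hn => by
    obtain ⟨S, h1, h2⟩ := exists_code_finset hp hg h n (by omega)
    have h3 : #(S.biUnion fun c => ({w | diffs w c < g} : Finset (Fin m → Fin p))) <
        #(univ : Finset (Fin m → Fin p)) := by
      have h4 : #(univ : Finset (Fin m → Fin p)) = p ^ m := by simp
      rw [h4]
      have h5 : 0 < 2 ^ m * p ^ (g - 1) := Nat.mul_pos (by positivity) (Nat.pow_pos hp)
      calc #(S.biUnion fun c => ({w | diffs w c < g} : Finset (Fin m → Fin p)))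
          ≤ ∑ c ∈ S, #{w | diffs w c < g} := card_biUnion_le
        _ ≤ ∑ _c ∈ S, 2 ^ m * p ^ (g - 1) := sum_le_sum fun c _ => card_ball_le hp c
        _ = n * (2 ^ m * p ^ (g - 1)) := by rw [sum_const, smul_eq_mul, h1]
        _ < k * (2 ^ m * p ^ (g - 1)) := Nat.mul_lt_mul_of_pos_right (by omega) h5
        _ ≤ p ^ m := h
    obtain ⟨w, -, hw⟩ := exists_mem_notMem_of_card_lt_card h3
    have h6 : ∀ v ∈ S, g ≤ diffs w v := by
      intro v hv
      by_contra h7
      exact hw (mem_biUnion.2 ⟨v, hv, by simpa using h7⟩)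
    have h7 : w ∉ S := by
      intro h8
      have h9 := h6 w h8
      have h10 : diffs w w = 0 := by simp [diffs]
      omega
    refine ⟨insert w S, by rw [card_insert_of_notMem h7, h1], ?_⟩
    intro v hv v' hv' hne
    rw [mem_insert] at hv hv'
    rcases hv with rfl | hv
    · rcases hv' with rfl | hv'
      · exact absurd rfl hne
      · exact h6 v' hv'
    · rcases hv' with rfl | hv'
      · rw [diffs_comm]
        exact h6 v hv
      · exact h2 v hv v' hv' hne

theorem exists_code (hp : 1 ≤ p) (hg : 1 ≤ g) {k : ℕ} (h : k * (2 ^ m * p ^ (g - 1)) ≤ p ^ m) :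
    ∃ e : Fin k → Fin m → ℕ, (∀ x j, e x j < p) ∧
      ∀ x u, x ≠ u → (g : ℤ) ≤ ∑ j, ((e x j : ℤ) - e u j) ^ 2 := by
  obtain ⟨S, h1, h2⟩ := exists_code_finset hp hg h k le_rfl
  let f := (S.equivFinOfCardEq h1).symm
  refine ⟨fun x j => ((f x : Fin m → Fin p) j : ℕ), fun x j => Fin.is_lt _, fun x u hxu => ?_⟩
  have h3 : (f x : Fin m → Fin p) ≠ f u := fun h4 => hxu (f.injective (Subtype.ext h4))
  have h4 : g ≤ diffs (f x : Fin m → Fin p) (f u) := h2 _ (f x).2 _ (f u).2 h3
  calc (g : ℤ) ≤ (diffs (f x : Fin m → Fin p) (f u) : ℕ) := by exact_mod_cast h4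
    _ = ∑ _j ∈ univ.filter (fun j => (f x : Fin m → Fin p) j ≠ (f u : Fin m → Fin p) j), (1 : ℤ) := by
        rw [sum_const, nsmul_eq_mul, mul_one]
        rfl
    _ ≤ ∑ j ∈ univ.filter (fun j => (f x : Fin m → Fin p) j ≠ (f u : Fin m → Fin p) j),
        ((((f x : Fin m → Fin p) j : ℕ) : ℤ) - ((f u : Fin m → Fin p) j : ℕ)) ^ 2 := by
        refine sum_le_sum fun j hj => ?_
        rw [mem_filter] at hj
        have h5 : (((f x : Fin m → Fin p) j : ℕ) : ℤ) - ((f u : Fin m → Fin p) j : ℕ) ≠ 0 := by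
          intro h6
          apply hj.2
          apply Fin.ext
          omega
        have h6 := sq_pos_of_ne_zero h5
        omega
    _ ≤ ∑ j, ((((f x : Fin m → Fin p) j : ℕ) : ℤ) - ((f u : Fin m → Fin p) j : ℕ)) ^ 2 :=
        sum_le_sum_of_subset_of_nonneg (filter_subset _ _) fun j _ _ => sq_nonneg _

/-- The digits of the numbers. -/
theorem exists_digits {k : ℕ} (h : k ≤ p ^ m) :
    ∃ e : Fin k → Fin m → ℕ, (∀ x j, e x j < p) ∧
      ∀ x u, x ≠ u → ((1 : ℕ) : ℤ) ≤ ∑ j, ((e x j : ℤ) - e u j) ^ 2 := by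
  refine ⟨fun a j => (finFunctionFinEquiv.symm (Fin.castLE h a) j : ℕ), fun a j => ?_, ?_⟩
  · exact (finFunctionFinEquiv.symm (Fin.castLE h a) j).2
  · intro a a' h1
    by_contra h2
    have h3 : ∑ j, (((finFunctionFinEquiv.symm (Fin.castLE h a) j : ℕ) : ℤ) -
        (finFunctionFinEquiv.symm (Fin.castLE h a') j : ℕ)) ^ 2 = 0 :=
      le_antisymm (by push_cast at h2; omega) (sum_nonneg fun j _ => sq_nonneg _)
    apply h1
    have h4 : finFunctionFinEquiv.symm (Fin.castLE h a) =
        finFunctionFinEquiv.symm (Fin.castLE h a') := by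
      funext j
      have h5 := (sum_eq_zero_iff_of_nonneg fun j _ => sq_nonneg _).1 h3 j (mem_univ j)
      have h6 := pow_eq_zero_iff (two_ne_zero) |>.1 h5
      apply Fin.ext
      omega
    exact Fin.castLE_injective h (finFunctionFinEquiv.symm.injective h4)

end Pool.Agent.J6H84.TEP
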