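import Pool.Agent.J6H84.TEP.Lower

/-!
# Counting the inputs with the same critical state
-/

set_option autoImplicit false

namespace Pool.Agent.J6H84.TEP

open Finset Classical

variable {k : ℕ} {S : Type} {P : Program k S} {D : ℕ} {x0 : Fin k}

/-- The values of the nodes. -/
noncomputable def ext (x0 : Fin k) (v : Node D → Fin k) (w : List Bool) : Fin k :=
  if h : w.length ≤ D then v ⟨w, h⟩ else x0

theorem ext_node (v : Node D → Fin k) (i : Node D) : ext x0 v i.1 = v i := by
  unfold ext
  rw [dif_pos i.2]

/-- The run from `s` has length at most `n`, and it finds out the values of at least `c` nodes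
outside `A`. -/
def Good (P : Program k S) (x0 : Fin k) (s : S) (n c : ℕ) (A : Finset (Node D))
    (v : Node D → Fin k) : Prop :=
  ∃ l o, l.length ≤ n ∧ P.Run (inputOf (ext x0 v) x0) s l o ∧
    (∀ r ∈ s :: l, P.output r = none → (P.label r).Correct (inputOf (ext x0 v) x0) D) ∧
    c ≤ #{i : Node D | i ∉ A ∧ Pebbled (P.nodes s l) i.1}

theorem card_fixed (A : Finset (Node D)) (κ : Node D → Fin k) (V : Finset (Node D → Fin k))
    (hV : ∀ v ∈ V, ∀ i ∈ A, v i = κ i) : #V * k ^ #A ≤ k ^ Fintype.card (Node D) := by
  have h1 : V ⊆ Fintype.piFinset fun i => if i ∈ A then {κ i} else univ := by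
    intro v hv
    rw [Fintype.mem_piFinset]
    intro i
    by_cases hi : i ∈ A
    · rw [if_pos hi, hV v hv i hi]
      exact mem_singleton_self _
    · rw [if_neg hi]
      exact mem_univ _
  have h2 : #(Fintype.piFinset fun i => if i ∈ A then ({κ i} : Finset (Fin k)) else univ) * k ^ #A =
      k ^ Fintype.card (Node D) := by
    rw [Fintype.card_piFinset]
    have h3 : ∀ i, #(if i ∈ A then ({κ i} : Finset (Fin k)) else univ) = if i ∈ A then 1 else k := by
      intro i
      split_ifs
      · simp
      · simp
    simp_rw [h3]
    have h4 : k ^ #A = ∏ i : Node D, if i ∈ A then k else 1 := by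
      rw [prod_ite_mem, univ_inter, prod_const]
    rw [h4, ← prod_mul_distrib]
    have h5 : ∀ i, ((if i ∈ A then 1 else k) * if i ∈ A then k else 1) = k := by
      intro i
      split_ifs
      · simp
      · simp
    simp_rw [h5]
    rw [prod_const, card_univ]
  rw [← h2]
  exact Nat.mul_le_mul_right _ (card_le_card h1)

/-- The induction step: the value of the queried node is found out from the answer. -/
theorem count_step (hk : 1 ≤ k) (hP : P.IsDeterministic) {n : ℕ}
    (ih : ∀ (s : S) (A : Finset (Node D)) (κ : Node D → Fin k) (c : ℕ)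
      (V : Finset (Node D → Fin k)), (∀ v ∈ V, ∀ i ∈ A, v i = κ i) →
      (∀ v ∈ V, Good P x0 s n c A v) → #V * k ^ (#A + c) ≤ k ^ Fintype.card (Node D))
    (s : S) (j : Node D) (A : Finset (Node D)) (κ : Node D → Fin k) (c : ℕ)
    (V : Finset (Node D → Fin k)) (hV : ∀ v ∈ V, ∀ i ∈ A, v i = κ i)
    (hrun : ∀ v ∈ V, ∃ t l o, l.length ≤ n ∧ P.edge s (v j) t ∧
      P.Run (inputOf (ext x0 v) x0) t l o ∧
      (∀ r ∈ t :: l, P.output r = none → (P.label r).Correct (inputOf (ext x0 v) x0) D) ∧
      c ≤ #{i : Node D | i ∉ A ∧ i ≠ j ∧ Pebbled (P.nodes t l) i.1}) :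
    #V * k ^ (#A + c) ≤ k ^ Fintype.card (Node D) := by
  by_cases hj : j ∈ A
  · rcases V.eq_empty_or_nonempty with rfl | ⟨v0, hv0⟩
    · simp
    · obtain ⟨t0, -, -, -, h1, -⟩ := hrun v0 hv0
      refine ih t0 A κ c V hV fun v hv => ?_
      obtain ⟨t, l, o, h2, h3, h4, h5, h6⟩ := hrun v hv
      rw [hV v hv j hj] at h3
      rw [hV v0 hv0 j hj] at h1
      obtain rfl := hP _ _ _ _ h1 h3
      refine ⟨l, o, h2, h4, h5, h6.trans (card_le_card fun i hi => ?_)⟩
      rw [mem_filter] at hi ⊢
      exact ⟨hi.1, hi.2.1, hi.2.2.2⟩
  · have h1 : ∀ a : Fin k, #{v ∈ V | v j = a} * k ^ (#A + 1 + c) ≤ k ^ Fintype.card (Node D) := by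
      intro a
      rcases ({v ∈ V | v j = a} : Finset (Node D → Fin k)).eq_empty_or_nonempty with h2 | ⟨v0, hv0⟩
      · rw [h2]
        simp
      · rw [mem_filter] at hv0
        obtain ⟨t0, -, -, -, h1, -⟩ := hrun v0 hv0.1
        rw [hv0.2] at h1
        have h7 : #(insert j A) = #A + 1 := card_insert_of_notMem hj
        rw [← h7]
        refine ih t0 (insert j A) (Function.update κ j a) c _ ?_ ?_
        · intro v hv i hi
          rw [mem_filter] at hv
          rcases mem_insert.1 hi with rfl | hi'
          · rw [Function.update_self]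
            exact hv.2
          · have hne : i ≠ j := by
              rintro rfl
              exact hj hi'
            rw [Function.update_of_ne hne]
            exact hV v hv.1 i hi'
        · intro v hv
          rw [mem_filter] at hv
          obtain ⟨t, l, o, h2, h3, h4, h5, h6⟩ := hrun v hv.1
          rw [hv.2] at h3
          obtain rfl := hP _ _ _ _ h1 h3
          refine ⟨l, o, h2, h4, h5, h6.trans (card_le_card fun i hi => ?_)⟩
          rw [mem_filter] at hi ⊢
          refine ⟨hi.1, fun h => ?_, hi.2.2.2⟩
          rcases mem_insert.1 h with h | h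
          · exact hi.2.2.1 h
          · exact hi.2.1 h
    have h2 : #V = ∑ a : Fin k, #{v ∈ V | v j = a} :=
      card_eq_sum_card_fiberwise fun v _ => mem_univ _
    have h3 : #V * k ^ (#A + 1 + c) ≤ k * k ^ Fintype.card (Node D) := by
      rw [h2, sum_mul]
      calc ∑ a : Fin k, #{v ∈ V | v j = a} * k ^ (#A + 1 + c)
          ≤ ∑ _a : Fin k, k ^ Fintype.card (Node D) := sum_le_sum fun a _ => h1 a
        _ = k * k ^ Fintype.card (Node D) := by simp
    have h4 : #V * k ^ (#A + 1 + c) = k * (#V * k ^ (#A + c)) := by
      have : #A + 1 + c = (#A + c) + 1 := by ring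
      rw [this, pow_succ]
      ring
    rw [h4] at h3
    exact Nat.le_of_mul_le_mul_left h3 hk

theorem count (hk : 1 ≤ k) (hP : P.IsDeterministic) (n : ℕ) :
    ∀ (s : S) (A : Finset (Node D)) (κ : Node D → Fin k) (c : ℕ) (V : Finset (Node D → Fin k)),
      (∀ v ∈ V, ∀ i ∈ A, v i = κ i) → (∀ v ∈ V, Good P x0 s n c A v) →
      #V * k ^ (#A + c) ≤ k ^ Fintype.card (Node D) := by
  induction n with
  | zero =>
    intro s A κ c V hV hG
    rcases V.eq_empty_or_nonempty with rfl | ⟨v0, hv0⟩
    · simp
    · obtain ⟨l, o, h1, -, -, h2⟩ := hG v0 hv0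
      have h3 : l = [] := List.length_eq_zero_iff.1 (by omega)
      subst h3
      have h4 : c = 0 := by
        have h5 : #{i : Node D | i ∉ A ∧ Pebbled (P.nodes s []) i.1} = 0 := by
          rw [card_eq_zero, filter_eq_empty_iff]
          rintro i - ⟨-, h6⟩
          exact h6
        omega
      subst h4
      exact card_fixed A κ V hV
  | succ n ih =>
    intro s A κ c V hV hG
    rcases V.eq_empty_or_nonempty with rfl | ⟨v0, hv0⟩
    · simp
    cases hout : P.output s with
    | some o' =>
      obtain ⟨l, o, -, h1, -, h2⟩ := hG v0 hv0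
      have h3 : l = [] := by
        match l, h1 with
        | [], _ => rfl
        | t :: l, h1 =>
          rw [h1.1] at hout
          exact absurd hout (by simp)
      subst h3
      have h4 : c = 0 := by
        have h5 : #{i : Node D | i ∉ A ∧ Pebbled (P.nodes s []) i.1} = 0 := by
          rw [card_eq_zero, filter_eq_empty_iff]
          rintro i - ⟨-, h6⟩
          exact h6
        omega
      subst h4
      exact card_fixed A κ V hV
    | none =>
      have hG' : ∀ v ∈ V, (P.label s).Correct (inputOf (ext x0 v) x0) D ∧
          ∃ t l o, l.length ≤ n ∧ P.edge s (ext x0 v (P.label s).node) t ∧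
            P.Run (inputOf (ext x0 v) x0) t l o ∧
            (∀ r ∈ t :: l, P.output r = none → (P.label r).Correct (inputOf (ext x0 v) x0) D) ∧
            c ≤ #{i : Node D | i ∉ A ∧ Pebbled ((P.label s).node :: P.nodes t l) i.1} := by
        intro v hv
        obtain ⟨l, o, h1, h2, h3, h4⟩ := hG v hv
        have h5 := h3 s (by simp) hout
        refine ⟨h5, ?_⟩
        match l, h1, h2, h3, h4 with
        | [], _, h2, _, _ =>
          have h6 : P.output s = some o := h2
          rw [hout] at h6
          exact absurd h6 (by simp)
        | t :: l, h1, h2, h3, h4 =>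
          refine ⟨t, l, o, by simpa using h1, ?_, h2.2.2,
            fun r hr => h3 r (List.mem_cons_of_mem _ hr), h4⟩
          have h6 := h2.2.1
          rwa [inputOf_answer h5] at h6
      cases hl : P.label s with
      | leaf w =>
        rw [hl] at hG'
        have hw : w.length = D := (hG' v0 hv0).1
        refine count_step (x0 := x0) hk hP ih s ⟨w, hw.le⟩ A κ c V hV fun v hv => ?_
        obtain ⟨-, t, l, o, h1, h2, h3, h4, h5⟩ := hG' v hv
        refine ⟨t, l, o, h1, ?_, h3, h4, h5.trans (card_le_card fun i hi => ?_)⟩
        · have h6 := ext_node (x0 := x0) v ⟨w, hw.le⟩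
          rw [← h6]
          exact h2
        · rw [mem_filter] at hi ⊢
          obtain ⟨h6, h7, h8⟩ := hi
          rcases h8 with ⟨h9, h10⟩ | ⟨h9, h10⟩
          · have h11 : w = i.1.dropLast := h10
            have h12 := congrArg List.length h11
            rw [List.length_dropLast] at h12
            have h13 : 0 < i.1.length := List.length_pos_iff.2 h9
            have h14 := i.2
            omega
          · exact ⟨h6, h7, fun h11 => h9 (by rw [h11]; rfl), h10⟩
      | fn w x y =>
        rw [hl] at hG'
        have hw : w.length < D := (hG' v0 hv0).1.1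
        have hlen : ∀ b, (w ++ [b]).length ≤ D := by
          intro b
          rw [List.length_append, List.length_singleton]
          exact hw
        obtain ⟨A', hA'⟩ : ∃ A' : Finset (Node D), A' =
          insert ⟨w ++ [false], hlen false⟩ (insert ⟨w ++ [true], hlen true⟩ A) := ⟨_, rfl⟩
        have hsub : A ⊆ A' := by
          rw [hA']
          exact (subset_insert _ _).trans (subset_insert _ _)
        have hcard := card_le_card hsub
        have hstep := count_step (x0 := x0) hk hP ih s ⟨w, hw.le⟩ A'
          (fun i => if i.1 = w ++ [false] then x else if i.1 = w ++ [true] then y else κ i)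
          (c - (#A' - #A)) V ?_ ?_
        · refine le_trans (Nat.mul_le_mul_left _ (Nat.pow_le_pow_right hk ?_)) hstep
          omega
        · intro v hv i hi
          obtain ⟨-, h1, h2⟩ := (hG' v hv).1
          rw [inputOf_value] at h1 h2
          have h3 : x = v ⟨w ++ [false], hlen false⟩ := by
            rw [h1]
            exact ext_node v ⟨w ++ [false], hlen false⟩
          have h4 : y = v ⟨w ++ [true], hlen true⟩ := by
            rw [h2]
            exact ext_node v ⟨w ++ [true], hlen true⟩
          by_cases h5 : i.1 = w ++ [false]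
          · rw [if_pos h5, h3]
            congr 1
            exact Subtype.ext h5
          · rw [if_neg h5]
            by_cases h6 : i.1 = w ++ [true]
            · rw [if_pos h6, h4]
              congr 1
              exact Subtype.ext h6
            · rw [if_neg h6]
              refine hV v hv i ?_
              rw [hA', mem_insert, mem_insert] at hi
              rcases hi with rfl | rfl | hi
              · exact absurd rfl h5
              · exact absurd rfl h6
              · exact hi
        · intro v hv
          obtain ⟨-, t, l, o, h1, h2, h3, h4, h5⟩ := hG' v hv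
          refine ⟨t, l, o, h1, ?_, h3, h4, ?_⟩
          · have h6 := ext_node (x0 := x0) v ⟨w, hw.le⟩
            rw [← h6]
            exact h2
          · have h6 : ({i : Node D | i ∉ A ∧ Pebbled (w :: P.nodes t l) i.1} : Finset (Node D)) ⊆
                ({i : Node D | i ∉ A' ∧ i ≠ ⟨w, hw.le⟩ ∧ Pebbled (P.nodes t l) i.1} :
                  Finset (Node D)) ∪ (A' \ A) := by
              intro i hi
              rw [mem_filter] at hi
              rw [mem_union]
              by_cases h7 : i ∈ A'
              · exact Or.inr (mem_sdiff.2 ⟨h7, hi.2.1⟩)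
              · left
                rw [mem_filter]
                refine ⟨mem_univ _, h7, ?_⟩
                rcases hi.2.2 with ⟨h8, h9⟩ | ⟨h8, h9⟩
                · exfalso
                  apply h7
                  have h10 : i.1 = w ++ [i.1.getLast h8] := by
                    rw [h9]
                    exact (List.dropLast_append_getLast h8).symm
                  rw [hA', mem_insert, mem_insert]
                  cases h11 : i.1.getLast h8 with
                  | false =>
                    left
                    rw [h11] at h10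
                    exact Subtype.ext h10
                  | true =>
                    right
                    left
                    rw [h11] at h10
                    exact Subtype.ext h10
                · exact ⟨fun h10 => h8 (by rw [h10]), h9⟩
            have h7 := (card_le_card h6).trans (card_union_le _ _)
            rw [card_sdiff_of_subset hsub] at h7
            have h8 : c ≤ #{i : Node D | i ∉ A ∧ Pebbled (w :: P.nodes t l) i.1} := h5
            omega

/-- Deterministic thrifty programs for trees of height `h` have at least `k ^ h` states. -/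
theorem deterministic_lower_bound [Fintype S] {h : ℕ} (hh : 2 ≤ h) (hk : 2 ≤ k)
    (hP : P.IsDeterministic) (hs : P.Solves h) (ht : P.IsThrifty h) : k ^ h ≤ Fintype.card S := by
  obtain ⟨D, rfl⟩ : ∃ D, h = D + 1 := ⟨h - 1, by omega⟩
  have x0 : Fin k := ⟨0, by omega⟩
  have h1 : ∀ v : Node D → Fin k, ∃ s n, Good P x0 s n (D + 1) ∅ v := by
    intro v
    obtain ⟨s, l, o, h2, h3, h4⟩ := exists_critical (by omega) hk hP hs ht (ext x0 v) x0
    refine ⟨s, l.length, l, o, le_rfl, h2, h3, ?_⟩
    simpa using h4
  choose s n hsn using h1
  obtain ⟨N, hN⟩ : ∃ N, ∀ v, n v ≤ N := by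
    obtain ⟨N, hN⟩ := Finset.exists_le (univ.image n)
    exact ⟨N, fun v => hN _ (mem_image_of_mem _ (mem_univ v))⟩
  have h2 : ∀ v, Good P x0 (s v) N (D + 1) ∅ v := by
    intro v
    obtain ⟨l, o, h3, h4⟩ := hsn v
    exact ⟨l, o, h3.trans (hN v), h4⟩
  have h3 : ∀ t : S, #{v : Node D → Fin k | s v = t} * k ^ (D + 1) ≤
      k ^ Fintype.card (Node D) := by
    intro t
    have h4 := count (x0 := x0) (by omega : 1 ≤ k) hP N t ∅ (fun _ => x0) (D + 1)
      ({v : Node D → Fin k | s v = t} : Finset (Node D → Fin k)) (by simp) (by
        intro v hv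
        rw [mem_filter] at hv
        rw [← hv.2]
        exact h2 v)
    simpa using h4
  have h4 : k ^ Fintype.card (Node D) = ∑ t : S, #{v : Node D → Fin k | s v = t} := by
    have h5 : #(univ : Finset (Node D → Fin k)) = k ^ Fintype.card (Node D) := by simp
    rw [← h5]
    exact card_eq_sum_card_fiberwise fun v _ => mem_univ _
  have h5 : k ^ Fintype.card (Node D) * k ^ (D + 1) ≤
      k ^ Fintype.card (Node D) * Fintype.card S := by
    calc k ^ Fintype.card (Node D) * k ^ (D + 1)
        = ∑ t : S, #{v : Node D → Fin k | s v = t} * k ^ (D + 1) := by rw [← sum_mul, ← h4]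
      _ ≤ ∑ _t : S, k ^ Fintype.card (Node D) := sum_le_sum fun t _ => h3 t
      _ = k ^ Fintype.card (Node D) * Fintype.card S := by
        rw [sum_const, card_univ, smul_eq_mul, Nat.mul_comm]
  exact Nat.le_of_mul_le_mul_left h5 (Nat.pow_pos (by omega))

end Pool.Agent.J6H84.TEP
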