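import Pool.Agent.J6H84.TEP.Proc

/-!
# The branching program
-/

set_option autoImplicit false

namespace Pool.Agent.J6H84.TEP

variable {k : ℕ}

/-- The program which belongs to a fragment with one entry. -/
def Frag.program (F : Frag k Unit (Fin k)) (D : ℕ) : Program k (Option (F.S ⊕ Fin k)) where
  start := none
  output s := match s with
    | some (Sum.inr c) => some c
    | _ => none
  label s := match s with
    | some (Sum.inl s) => F.var s
    | _ => Var.leaf (List.replicate D false)
  edge s x t := match s, t with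
    | none, some (Sum.inl t) => F.inn () t
    | none, some (Sum.inr c) => F.thru () c
    | some (Sum.inl s), some (Sum.inl t) => F.step s x t
    | some (Sum.inl s), some (Sum.inr c) => F.out s x c
    | _, _ => False

/-- The states of a computation which come from a run of the fragment. -/
def Frag.path (F : Frag k Unit (Fin k)) (l : List F.S) (c : Fin k) :
    List (Option (F.S ⊕ Fin k)) :=
  l.map (fun s => some (Sum.inl s)) ++ [some (Sum.inr c)]

theorem Frag.chain_final (F : Frag k Unit (Fin k)) (D : ℕ) (I : Input k) (c c' : Fin k)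
    (l : List (Option (F.S ⊕ Fin k)))
    (h : List.IsChain (fun s t => (F.program D).output s = none ∧
      (F.program D).edge s (I.answer ((F.program D).label s)) t) (some (Sum.inr c) :: l))
    (h' : ∃ t, (some (Sum.inr c) :: l).getLast? = some t ∧ (F.program D).output t = some c') :
    l = [] ∧ c = c' := by
  match l with
  | [] =>
    obtain ⟨t, h1, h2⟩ := h'
    have h3 : some (Sum.inr c) = t := by simpa using h1
    subst h3
    exact ⟨rfl, Option.some.inj h2⟩
  | t :: l =>
    have h1 := (List.isChain_cons_cons.1 h).1.1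
    exact absurd h1 (by simp [Frag.program])

theorem Frag.chain_iff (F : Frag k Unit (Fin k)) (D : ℕ) (I : Input k) (c : Fin k)
    (l : List (Option (F.S ⊕ Fin k))) (s : F.S) :
    (List.IsChain (fun s t => (F.program D).output s = none ∧
      (F.program D).edge s (I.answer ((F.program D).label s)) t) (some (Sum.inl s) :: l) ∧
    ∃ t, (some (Sum.inl s) :: l).getLast? = some t ∧ (F.program D).output t = some c) ↔
      ∃ l', F.Tail I s l' c ∧ l = F.path l' c := by
  induction l generalizing s with
  | nil =>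
    constructor
    · rintro ⟨-, t, h1, h2⟩
      have h3 : some (Sum.inl s) = t := by simpa using h1
      subst h3
      exact absurd h2 (by simp [Frag.program])
    · rintro ⟨l', -, h2⟩
      exact absurd h2.symm (by simp [Frag.path])
  | cons u l ih =>
    constructor
    · rintro ⟨h1, h2⟩
      obtain ⟨⟨-, h3⟩, h4⟩ := List.isChain_cons_cons.1 h1
      have h5 : ∃ t, (u :: l).getLast? = some t ∧ (F.program D).output t = some c := by
        simpa [List.getLast?_cons_cons] using h2
      match u, h3, h4, h5 with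
      | none, h3, _, _ => exact h3.elim
      | some (Sum.inl t), h3, h4, h5 =>
        obtain ⟨l', h6, h7⟩ := (ih t).1 ⟨h4, h5⟩
        exact ⟨t :: l', ⟨h3, h6⟩, by rw [h7]; rfl⟩
      | some (Sum.inr c'), h3, h4, h5 =>
        obtain ⟨h6, h7⟩ := F.chain_final D I c' c l h4 h5
        subst h6 h7
        exact ⟨[], h3, rfl⟩
    · rintro ⟨l', h1, h2⟩
      match l', h1, h2 with
      | [], h1, h2 =>
        have h3 : u :: l = [some (Sum.inr c)] := h2
        obtain ⟨rfl, rfl⟩ : u = some (Sum.inr c) ∧ l = [] := by simpa using h3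
        refine ⟨List.isChain_cons_cons.2 ⟨⟨rfl, h1⟩, List.isChain_singleton _⟩, _, rfl, rfl⟩
      | t :: l', h1, h2 =>
        have h3 : u :: l = some (Sum.inl t) :: F.path l' c := h2
        obtain ⟨rfl, rfl⟩ := List.cons.inj h3
        obtain ⟨h4, h5⟩ := (ih t).2 ⟨l', h1.2, rfl⟩
        refine ⟨List.isChain_cons_cons.2 ⟨⟨rfl, h1.1⟩, h4⟩, ?_⟩
        simpa [List.getLast?_cons_cons] using h5

theorem Frag.computes_iff (F : Frag k Unit (Fin k)) (D : ℕ) (I : Input k) (c : Fin k)
    (l : List (Option (F.S ⊕ Fin k))) :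
    (F.program D).Computes I l c ↔ ∃ l', F.Run I () l' c ∧ l = none :: F.path l' c := by
  constructor
  · rintro ⟨h1, h2, h3⟩
    match l, h1, h2, h3 with
    | [], h1, _, _ => simp at h1
    | [s], h1, _, h3 =>
      obtain ⟨t, h4, h5⟩ := h3
      have h6 : s = none := by simpa [Frag.program] using h1
      have h7 : s = t := by simpa using h4
      subst h6
      subst h7
      exact absurd h5 (by simp [Frag.program])
    | s :: u :: l, h1, h2, h3 =>
      have h6 : s = none := by simpa [Frag.program] using h1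
      subst h6
      obtain ⟨⟨-, h7⟩, h8⟩ := List.isChain_cons_cons.1 h2
      have h9 : ∃ t, (u :: l).getLast? = some t ∧ (F.program D).output t = some c := by
        simpa [List.getLast?_cons_cons] using h3
      match u, h7, h8, h9 with
      | none, h7, _, _ => exact h7.elim
      | some (Sum.inl t), h7, h8, h9 =>
        obtain ⟨l', h10, h11⟩ := (F.chain_iff D I c l t).1 ⟨h8, h9⟩
        exact ⟨t :: l', ⟨h7, h10⟩, by rw [h11]; rfl⟩
      | some (Sum.inr c'), h7, h8, h9 =>
        obtain ⟨h10, h11⟩ := F.chain_final D I c' c l h8 h9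
        subst h10 h11
        exact ⟨[], h7, rfl⟩
  · rintro ⟨l', h1, rfl⟩
    match l', h1 with
    | [], h1 =>
      exact ⟨rfl, List.isChain_cons_cons.2 ⟨⟨rfl, h1⟩, List.isChain_singleton _⟩, _, rfl, rfl⟩
    | t :: l', h1 =>
      obtain ⟨h4, h5⟩ := (F.chain_iff D I c (F.path l' c) t).2 ⟨l', h1.2, rfl⟩
      refine ⟨rfl, List.isChain_cons_cons.2 ⟨⟨rfl, h1.1⟩, h4⟩, ?_⟩
      simpa [List.getLast?_cons_cons, Frag.path] using h5

theorem Does.solves {F : Frag k Unit (Fin k)} {h : ℕ}
    (hF : Does F (fun I _ c => c = I.value (h - 1) []) (fun I v => v.Correct I (h - 1))) :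
    (F.program (h - 1)).Solves h ∧ (F.program (h - 1)).IsThrifty h := by
  constructor
  · intro I
    obtain ⟨l, hl⟩ := hF.complete I () _ rfl
    refine ⟨none :: F.path l (I.value (h - 1) []), (F.computes_iff _ _ _ _).2 ⟨l, hl, rfl⟩, ?_⟩
    intro l' c' h1
    obtain ⟨l2, h2, h3⟩ := (F.computes_iff _ _ _ _).1 h1
    obtain ⟨h4, -⟩ := hF.sound _ _ _ _ h2
    subst h4
    have h5 := hF.unique _ _ _ _ _ hl h2
    subst h5
    exact ⟨h3, rfl⟩
  · intro I l c h1 s hs ho
    obtain ⟨l2, h2, rfl⟩ := (F.computes_iff _ _ _ _).1 h1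
    obtain ⟨-, h4⟩ := hF.sound _ _ _ _ h2
    match s, hs, ho with
    | none, _, _ => exact List.length_replicate
    | some (Sum.inr c'), _, ho => exact absurd ho (by simp [Frag.program])
    | some (Sum.inl s), hs, _ =>
      refine h4 s ?_
      simpa [Frag.path] using hs

theorem Does.of_iff {A B : Type} {F : Frag k A B} {R R' : Input k → A → B → Prop}
    {ok : Input k → Var k → Prop} (h : Does F R ok) (hR : ∀ I a b, R I a b ↔ R' I a b) :
    Does F R' ok where
  sound I a l b hr := ⟨(hR I a b).1 (h.sound I a l b hr).1, (h.sound I a l b hr).2⟩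
  complete I a b hr := h.complete I a b ((hR I a b).2 hr)
  unique := h.unique

theorem exists_program {Reg : ℕ → Type} [∀ n, Fintype (Reg n)] (T : Pads k Reg) (z : Reg 0)
    (p : Fin k → Reg 0) (hp : Function.Injective p) {h K : ℕ} (hk : 2 ≤ k) (hh : 1 ≤ h)
    (hK : ∀ i ≤ h - 1, Fintype.card (Reg i) ≤ K) :
    ∃ (S : Type) (_ : Fintype S) (P : Program k S), P.Solves h ∧ P.IsThrifty h ∧
      Fintype.card S ≤ 2 * 4 ^ (h - 1) * (K ^ 3 * k ^ 2) := by
  obtain ⟨D, rfl⟩ : ∃ D, h = D + 1 := ⟨h - 1, by omega⟩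
  obtain ⟨F, hF, hcard⟩ := exists_proc T (D := D) (K := K) (M := D)
    (by omega) (fun i hi => hK i (by omega)) D [] (by simp) 0 0 0 0 0 (by omega) (by omega)
    (by omega) (by omega) (by omega) (fun _ x y => y = p x)
  have hF' : Does (F.congr (fun _ : Unit => (z, z, z)) (fun c : Fin k => (p c, z, z)))
      (fun I _ c => c = I.value (D + 1 - 1) []) (fun I v => v.Correct I (D + 1 - 1)) := by
    refine (hF.congr _ _).of_iff fun I a c => ⟨fun h1 => hp h1.2, fun h1 => ?_⟩
    subst h1
    exact ⟨rfl, rfl⟩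
  obtain ⟨h1, h2⟩ := hF'.solves
  let := F.fin
  refine ⟨Option (F.S ⊕ Fin k), inferInstance, _, h1, h2, ?_⟩
  have h3 : Fintype.card (Option (F.S ⊕ Fin k)) = F.card + k + 1 := by
    rw [Fintype.card_option, Fintype.card_sum, Fintype.card_fin]
    rfl
  rw [h3]
  have h4 : k + 1 ≤ K ^ 3 * k ^ 2 := by
    have h5 : 1 ≤ K ^ 3 := by
      refine Nat.one_le_pow _ _ (lt_of_lt_of_le ?_ (hK 0 (by omega)))
      exact Fintype.card_pos_iff.2 ⟨z⟩
    calc k + 1 ≤ 1 * k ^ 2 := by nlinarith
      _ ≤ _ := Nat.mul_le_mul_right _ h5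
  have h6 : D + 1 - 1 = D := rfl
  rw [h6]
  omega

end Pool.Agent.J6H84.TEP
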