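import Pool.Agent.J6H84.TEP.Frag

/-!
# Composition of two fragments, a query, and two fragments
-/

set_option autoImplicit false

namespace Pool.Agent.J6H84.TEP

variable {k : ℕ} {A B C D E G : Type}

theorem Frag.five_run {T : Type} [Fintype T] (F1 : Frag k A B) (F2 : Frag k B C) (var : T → Var k)
    (inn : C → T → Prop) (out : T → Fin k → D → Prop) (F4 : Frag k D E) (F5 : Frag k E G)
    (I : Input k) (a : A)
    (l : List (F1.seq (F2.seq ((Frag.query T var inn out).seq (F4.seq F5)))).S) (g : G) :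
    (F1.seq (F2.seq ((Frag.query T var inn out).seq (F4.seq F5)))).Run I a l g ↔
      ∃ l1 b l2 c t d l4 e l5, F1.Run I a l1 b ∧ F2.Run I b l2 c ∧ inn c t ∧
        out t (I.answer (var t)) d ∧ F4.Run I d l4 e ∧ F5.Run I e l5 g ∧
        l = l1.map Sum.inl ++ (l2.map Sum.inl ++ ([t].map Sum.inl ++
          (l4.map Sum.inl ++ l5.map Sum.inr).map Sum.inr).map Sum.inr).map Sum.inr := by
  constructor
  · intro h
    obtain ⟨l1, b, m1, h1, h2, h3⟩ := (Frag.seq_run _ _ _ _ _ _).1 h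
    obtain ⟨l2, c, m2, h4, h5, h6⟩ := (Frag.seq_run _ _ _ _ _ _).1 h2
    obtain ⟨l3, d, m3, h7, h8, h9⟩ := (Frag.seq_run _ _ _ _ _ _).1 h5
    obtain ⟨t, h10, h11, h12⟩ := (Frag.query_run _ _ _ _ _ _ _ _).1 h7
    obtain ⟨l4, e, l5, h13, h14, h15⟩ := (Frag.seq_run _ _ _ _ _ _).1 h8
    subst h15 h10 h9 h6
    exact ⟨l1, b, l2, c, t, d, l4, e, l5, h1, h4, h11, h12, h13, h14, h3⟩
  · rintro ⟨l1, b, l2, c, t, d, l4, e, l5, h1, h4, h11, h12, h13, h14, h3⟩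
    refine (Frag.seq_run _ _ _ _ _ _).2 ⟨l1, b, _, h1, ?_, h3⟩
    refine (Frag.seq_run _ _ _ _ _ _).2 ⟨l2, c, _, h4, ?_, rfl⟩
    refine (Frag.seq_run _ _ _ _ _ _).2 ⟨[t], d, _, ?_, ?_, rfl⟩
    · exact (Frag.query_run _ _ _ _ _ _ _ _).2 ⟨t, rfl, h11, h12⟩
    · exact (Frag.seq_run _ _ _ _ _ _).2 ⟨l4, e, l5, h13, h14, rfl⟩

theorem Frag.seq_ok (F : Frag k A B) (G : Frag k B C) (p : Var k → Prop) (l1 : List F.S)
    (l2 : List G.S) (h1 : ∀ s ∈ l1, p (F.var s)) (h2 : ∀ s ∈ l2, p (G.var s)) :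
    ∀ s ∈ ((l1.map Sum.inl ++ l2.map Sum.inr : List (F.S ⊕ G.S)) : List (F.seq G).S),
      p ((F.seq G).var s) := by
  intro s hs
  rcases List.mem_append.1 (show s ∈ (l1.map Sum.inl ++ l2.map Sum.inr : List (F.S ⊕ G.S)) from hs)
    with h | h
  · obtain ⟨x, hx, rfl⟩ := List.mem_map.1 h
    exact h1 x hx
  · obtain ⟨x, hx, rfl⟩ := List.mem_map.1 h
    exact h2 x hx

theorem Does.five {T : Type} [Fintype T] {F1 : Frag k A B} {F2 : Frag k B C} {var : T → Var k}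
    {inn : C → T → Prop} {out : T → Fin k → D → Prop} {F4 : Frag k D E} {F5 : Frag k E G}
    {R1 : Input k → A → B → Prop} {R2 : Input k → B → C → Prop} {R4 : Input k → D → E → Prop}
    {R5 : Input k → E → G → Prop} {R : Input k → A → G → Prop} {ok : Input k → Var k → Prop}
    (h1 : Does F1 R1 ok) (h2 : Does F2 R2 ok) (h4 : Does F4 R4 ok) (h5 : Does F5 R5 ok)
    (hs : ∀ I a b c t d e g, R1 I a b → R2 I b c → inn c t → out t (I.answer (var t)) d →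
      R4 I d e → R5 I e g → R I a g ∧ ok I (var t))
    (hc : ∀ I a g, R I a g → ∃ b c t d e, R1 I a b ∧ R2 I b c ∧ inn c t ∧
      out t (I.answer (var t)) d ∧ R4 I d e ∧ R5 I e g)
    (hu : ∀ I a g b c t d e b' c' t' d' e', R1 I a b → R2 I b c → inn c t →
      out t (I.answer (var t)) d → R4 I d e → R5 I e g → R1 I a b' → R2 I b' c' → inn c' t' →
      out t' (I.answer (var t')) d' → R4 I d' e' → R5 I e' g →
      b = b' ∧ c = c' ∧ t = t' ∧ d = d' ∧ e = e') :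
    Does (F1.seq (F2.seq ((Frag.query T var inn out).seq (F4.seq F5)))) R ok where
  sound I a l g hr := by
    obtain ⟨l1, b, l2, c, t, d, l4, e, l5, r1, r2, r3, r4, r5, r6, rfl⟩ :=
      (Frag.five_run F1 F2 var inn out F4 F5 I a l g).1 hr
    obtain ⟨s1, o1⟩ := h1.sound _ _ _ _ r1
    obtain ⟨s2, o2⟩ := h2.sound _ _ _ _ r2
    obtain ⟨s4, o4⟩ := h4.sound _ _ _ _ r5
    obtain ⟨s5, o5⟩ := h5.sound _ _ _ _ r6
    obtain ⟨s, o⟩ := hs I a b c t d e g s1 s2 r3 r4 s4 s5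
    refine ⟨s, ?_⟩
    refine Frag.seq_ok _ _ (ok I) _ _ o1 (Frag.seq_ok _ _ (ok I) _ _ o2
      (Frag.seq_ok _ _ (ok I) _ _ ?_ (Frag.seq_ok _ _ (ok I) _ _ o4 o5)))
    intro s hs'
    obtain rfl : s = t := List.eq_of_mem_singleton hs'
    exact o
  complete I a g hr := by
    obtain ⟨b, c, t, d, e, r1, r2, r3, r4, r5, r6⟩ := hc I a g hr
    obtain ⟨l1, s1⟩ := h1.complete _ _ _ r1
    obtain ⟨l2, s2⟩ := h2.complete _ _ _ r2
    obtain ⟨l4, s4⟩ := h4.complete _ _ _ r5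
    obtain ⟨l5, s5⟩ := h5.complete _ _ _ r6
    exact ⟨_, (Frag.five_run F1 F2 var inn out F4 F5 I a _ g).2
      ⟨l1, b, l2, c, t, d, l4, e, l5, s1, s2, r3, r4, s4, s5, rfl⟩⟩
  unique I a g l l' hr hr' := by
    obtain ⟨l1, b, l2, c, t, d, l4, e, l5, r1, r2, r3, r4, r5, r6, rfl⟩ :=
      (Frag.five_run F1 F2 var inn out F4 F5 I a l g).1 hr
    obtain ⟨l1', b', l2', c', t', d', l4', e', l5', r1', r2', r3', r4', r5', r6', rfl⟩ :=
      (Frag.five_run F1 F2 var inn out F4 F5 I a l' g).1 hr'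
    obtain ⟨hb, hc', ht, hd, he⟩ := hu I a g b c t d e b' c' t' d' e'
      (h1.sound _ _ _ _ r1).1 (h2.sound _ _ _ _ r2).1 r3 r4 (h4.sound _ _ _ _ r5).1
      (h5.sound _ _ _ _ r6).1 (h1.sound _ _ _ _ r1').1 (h2.sound _ _ _ _ r2').1 r3' r4'
      (h4.sound _ _ _ _ r5').1 (h5.sound _ _ _ _ r6').1
    subst hb hc' ht hd he
    rw [h1.unique _ _ _ _ _ r1 r1', h2.unique _ _ _ _ _ r2 r2', h4.unique _ _ _ _ _ r5 r5',
      h5.unique _ _ _ _ _ r6 r6']

theorem Frag.five_card {T : Type} [Fintype T] (F1 : Frag k A B) (F2 : Frag k B C) (var : T → Var k)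
    (inn : C → T → Prop) (out : T → Fin k → D → Prop) (F4 : Frag k D E) (F5 : Frag k E G) :
    (F1.seq (F2.seq ((Frag.query T var inn out).seq (F4.seq F5)))).card =
      F1.card + (F2.card + (Fintype.card T + (F4.card + F5.card))) := by
  rw [Frag.seq_card, Frag.seq_card, Frag.seq_card, Frag.seq_card]
  rfl

end Pool.Agent.J6H84.TEP
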