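import Pool.Agent.J6H84.TEP.Model

/-!
# Fragments of branching programs

A fragment has entries indexed by `A` and exits indexed by `B`; fragments can be composed without
additional states.
-/

set_option autoImplicit false

namespace Pool.Agent.J6H84.TEP

/-- A fragment of a branching program with entries `A` and exits `B`. -/
structure Frag (k : ℕ) (A B : Type) where
  S : Type
  fin : Fintype S
  var : S → Var k
  inn : A → S → Prop
  thru : A → B → Prop
  step : S → Fin k → S → Prop
  out : S → Fin k → B → Prop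

variable {k : ℕ} {A B C A' B' : Type}

/-- The number of states of a fragment. -/
def Frag.card (F : Frag k A B) : ℕ := @Fintype.card F.S F.fin

/-- `F.Tail I s l b`: the states `s :: l` form a run on `I` which leaves through the exit `b`. -/
def Frag.Tail (F : Frag k A B) (I : Input k) : F.S → List F.S → B → Prop
  | s, [], b => F.out s (I.answer (F.var s)) b
  | s, t :: l, b => F.step s (I.answer (F.var s)) t ∧ F.Tail I t l b

/-- `F.Run I a l b`: the states `l` form a run on `I` from the entry `a` to the exit `b`. -/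
def Frag.Run (F : Frag k A B) (I : Input k) (a : A) : List F.S → B → Prop
  | [], b => F.thru a b
  | s :: l, b => F.inn a s ∧ F.Tail I s l b

/-- Change of the entries and exits. -/
def Frag.congr (f : A → A') (g : B → B') (F : Frag k A' B') : Frag k A B where
  S := F.S
  fin := F.fin
  var := F.var
  inn a s := F.inn (f a) s
  thru a b := F.thru (f a) (g b)
  step := F.step
  out s x b := F.out s x (g b)

theorem Frag.congr_tail (f : A → A') (g : B → B') (F : Frag k A' B') (I : Input k) (s : F.S)
    (l : List F.S) (b : B) : (F.congr f g).Tail I s l b ↔ F.Tail I s l (g b) := by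
  induction l generalizing s with
  | nil => exact Iff.rfl
  | cons t l ih => exact and_congr Iff.rfl (ih t)

theorem Frag.congr_run (f : A → A') (g : B → B') (F : Frag k A' B') (I : Input k) (a : A)
    (l : List F.S) (b : B) : (F.congr f g).Run I a l b ↔ F.Run I (f a) l (g b) := by
  cases l with
  | nil => exact Iff.rfl
  | cons s l => exact and_congr Iff.rfl (F.congr_tail f g I s l b)

/-- A fragment which makes one query, in a state of the finite type `T`. -/
def Frag.query (T : Type) [Fintype T] (var : T → Var k) (inn : A → T → Prop)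
    (out : T → Fin k → B → Prop) : Frag k A B where
  S := T
  fin := inferInstance
  var := var
  inn := inn
  thru _ _ := False
  step _ _ _ := False
  out := out

theorem Frag.query_run (T : Type) [Fintype T] (var : T → Var k) (inn : A → T → Prop)
    (out : T → Fin k → B → Prop) (I : Input k) (a : A) (l : List T) (b : B) :
    (Frag.query T var inn out).Run I a l b ↔
      ∃ t, l = [t] ∧ inn a t ∧ out t (I.answer (var t)) b := by
  match l with
  | [] => simp [Frag.Run, Frag.query]
  | [t] =>
    constructor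
    · rintro ⟨h1, h2⟩
      exact ⟨t, rfl, h1, h2⟩
    · rintro ⟨t', h, h1, h2⟩
      obtain rfl : t = t' := by simpa using h
      exact ⟨h1, h2⟩
  | t :: s :: l =>
    constructor
    · rintro ⟨h1, h2, h3⟩
      exact h2.elim
    · rintro ⟨t', h, h1, h2⟩
      simp at h

/-- Composition of fragments. -/
def Frag.seq (F : Frag k A B) (G : Frag k B C) : Frag k A C where
  S := F.S ⊕ G.S
  fin := @instFintypeSum _ _ F.fin G.fin
  var := Sum.elim F.var G.var
  inn a s := Sum.elim (fun s => F.inn a s) (fun t => ∃ b, F.thru a b ∧ G.inn b t) s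
  thru a c := ∃ b, F.thru a b ∧ G.thru b c
  step s x t := Sum.elim
    (fun s => Sum.elim (fun t => F.step s x t) (fun t => ∃ b, F.out s x b ∧ G.inn b t) t)
    (fun s => Sum.elim (fun _ => False) (fun t => G.step s x t) t) s
  out s x c := Sum.elim (fun s => ∃ b, F.out s x b ∧ G.thru b c) (fun t => G.out t x c) s

theorem Frag.seq_card (F : Frag k A B) (G : Frag k B C) : (F.seq G).card = F.card + G.card := by
  letI := F.fin
  letI := G.fin
  exact Fintype.card_sum

theorem Frag.seq_tail_inr (F : Frag k A B) (G : Frag k B C) (I : Input k) (t : G.S)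
    (l : List (F.S ⊕ G.S)) (c : C) : (F.seq G).Tail I (Sum.inr t) l c ↔
      ∃ l2, l = l2.map Sum.inr ∧ G.Tail I t l2 c := by
  induction l generalizing t with
  | nil =>
    constructor
    · intro h
      exact ⟨[], rfl, h⟩
    · rintro ⟨l2, h1, h2⟩
      obtain rfl : l2 = [] := by simpa using h1.symm
      exact h2
  | cons u l ih =>
    constructor
    · rintro ⟨h1, h2⟩
      match u, h1, h2 with
      | Sum.inl u, h1, _ => exact h1.elim
      | Sum.inr u, h1, h2 =>
        obtain ⟨l2, h3, h4⟩ := (ih u).1 h2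
        exact ⟨u :: l2, by rw [h3]; rfl, h1, h4⟩
    · rintro ⟨l2, h1, h2⟩
      match l2, h1, h2 with
      | [], h1, _ => simp at h1
      | v :: l2, h1, h2 =>
        have h3 : u = Sum.inr v := by simpa using (List.cons.inj h1).1
        have h4 : l = l2.map Sum.inr := by simpa using (List.cons.inj h1).2
        subst h3
        exact ⟨h2.1, (ih v).2 ⟨l2, h4, h2.2⟩⟩

theorem Frag.seq_tail_inl (F : Frag k A B) (G : Frag k B C) (I : Input k) (s : F.S)
    (l : List (F.S ⊕ G.S)) (c : C) : (F.seq G).Tail I (Sum.inl s) l c ↔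
      ∃ l1 b l2, F.Tail I s l1 b ∧ G.Run I b l2 c ∧ l = l1.map Sum.inl ++ l2.map Sum.inr := by
  induction l generalizing s with
  | nil =>
    constructor
    · rintro ⟨b, h1, h2⟩
      exact ⟨[], b, [], h1, h2, rfl⟩
    · rintro ⟨l1, b, l2, h1, h2, h3⟩
      obtain ⟨h4, h5⟩ : l1 = [] ∧ l2 = [] := by simpa using h3.symm
      subst h4 h5
      exact ⟨b, h1, h2⟩
  | cons u l ih =>
    constructor
    · rintro ⟨h1, h2⟩
      match u, h1, h2 with
      | Sum.inl u, h1, h2 =>
        obtain ⟨l1, b, l2, h3, h4, h5⟩ := (ih u).1 h2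
        exact ⟨u :: l1, b, l2, ⟨h1, h3⟩, h4, by rw [h5]; rfl⟩
      | Sum.inr u, h1, h2 =>
        obtain ⟨b, h3, h4⟩ := h1
        obtain ⟨l2, h5, h6⟩ := (F.seq_tail_inr G I u l c).1 h2
        exact ⟨[], b, u :: l2, h3, ⟨h4, h6⟩, by rw [h5]; rfl⟩
    · rintro ⟨l1, b, l2, h1, h2, h3⟩
      match l1, l2, h1, h2, h3 with
      | [], [], _, _, h3 => simp at h3
      | [], v :: l2, h1, h2, h3 =>
        have h3' : u :: l = Sum.inr v :: l2.map Sum.inr := by simpa using h3
        obtain ⟨h4, h5⟩ := List.cons.inj h3'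
        subst h4
        exact ⟨⟨b, h1, h2.1⟩, (F.seq_tail_inr G I v l c).2 ⟨l2, h5, h2.2⟩⟩
      | v :: l1, l2, h1, h2, h3 =>
        have h3' : u :: l = Sum.inl v :: (l1.map Sum.inl ++ l2.map Sum.inr) := by simpa using h3
        obtain ⟨h4, h5⟩ := List.cons.inj h3'
        subst h4
        exact ⟨h1.1, (ih v).2 ⟨l1, b, l2, h1.2, h2, h5⟩⟩

theorem Frag.seq_run (F : Frag k A B) (G : Frag k B C) (I : Input k) (a : A)
    (l : List (F.S ⊕ G.S)) (c : C) : (F.seq G).Run I a l c ↔
      ∃ l1 b l2, F.Run I a l1 b ∧ G.Run I b l2 c ∧ l = l1.map Sum.inl ++ l2.map Sum.inr := by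
  match l with
  | [] =>
    constructor
    · rintro ⟨b, h1, h2⟩
      exact ⟨[], b, [], h1, h2, rfl⟩
    · rintro ⟨l1, b, l2, h1, h2, h3⟩
      obtain ⟨h4, h5⟩ : l1 = [] ∧ l2 = [] := by simpa using h3.symm
      subst h4 h5
      exact ⟨b, h1, h2⟩
  | Sum.inl u :: l =>
    constructor
    · rintro ⟨h1, h2⟩
      obtain ⟨l1, b, l2, h3, h4, h5⟩ := (F.seq_tail_inl G I u l c).1 h2
      exact ⟨u :: l1, b, l2, ⟨h1, h3⟩, h4, by rw [h5]; rfl⟩
    · rintro ⟨l1, b, l2, h1, h2, h3⟩
      match l1, l2, h1, h2, h3 with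
      | [], [], _, _, h3 => simp at h3
      | [], v :: l2, h1, h2, h3 => simp at h3
      | v :: l1, l2, h1, h2, h3 =>
        have h3' : Sum.inl u :: l = Sum.inl v :: (l1.map Sum.inl ++ l2.map Sum.inr) := by
          simpa using h3
        obtain ⟨h4, h5⟩ := List.cons.inj h3'
        obtain rfl := Sum.inl.inj h4
        exact ⟨h1.1, (F.seq_tail_inl G I u l c).2 ⟨l1, b, l2, h1.2, h2, h5⟩⟩
  | Sum.inr u :: l =>
    constructor
    · rintro ⟨⟨b, h1, h2⟩, h3⟩
      obtain ⟨l2, h5, h6⟩ := (F.seq_tail_inr G I u l c).1 h3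
      exact ⟨[], b, u :: l2, h1, ⟨h2, h6⟩, by rw [h5]; rfl⟩
    · rintro ⟨l1, b, l2, h1, h2, h3⟩
      match l1, l2, h1, h2, h3 with
      | [], [], _, _, h3 => simp at h3
      | v :: l1, l2, h1, h2, h3 => simp at h3
      | [], v :: l2, h1, h2, h3 =>
        have h3' : Sum.inr u :: l = Sum.inr v :: l2.map Sum.inr := by simpa using h3
        obtain ⟨h4, h5⟩ := List.cons.inj h3'
        obtain rfl := Sum.inr.inj h4
        exact ⟨⟨b, h1, h2.1⟩, (F.seq_tail_inr G I u l c).2 ⟨l2, h5, h2.2⟩⟩

/-- The fragment `F` transforms entries into exits exactly as the relation `R` says, uses only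
variables which are `ok`, and has at most one run from an entry to an exit. -/
structure Does (F : Frag k A B) (R : Input k → A → B → Prop) (ok : Input k → Var k → Prop) :
    Prop where
  sound : ∀ I a l b, F.Run I a l b → R I a b ∧ ∀ s ∈ l, ok I (F.var s)
  complete : ∀ I a b, R I a b → ∃ l, F.Run I a l b
  unique : ∀ I a b l l', F.Run I a l b → F.Run I a l' b → l = l'

theorem Does.congr {F : Frag k A' B'} {R : Input k → A' → B' → Prop} {ok : Input k → Var k → Prop}
    (h : Does F R ok) (f : A → A') (g : B → B') :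
    Does (F.congr f g) (fun I a b => R I (f a) (g b)) ok where
  sound I a l b hr := h.sound I (f a) l (g b) ((F.congr_run f g I a l b).1 hr)
  complete I a b hr := by
    obtain ⟨l, hl⟩ := h.complete I (f a) (g b) hr
    exact ⟨l, (F.congr_run f g I a l b).2 hl⟩
  unique I a b l l' h1 h2 := h.unique I (f a) (g b) l l' ((F.congr_run f g I a l b).1 h1)
    ((F.congr_run f g I a l' b).1 h2)

end Pool.Agent.J6H84.TEP
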