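import Mathlib

/-!
# The critical moment of a pebbling sequence
-/

set_option autoImplicit false

namespace Pool.Agent.J6H84.TEP

/-- In the sequence of nodes the parent of `i` occurs, and it occurs before `i`. -/
def Pebbled : List (List Bool) → List Bool → Prop
  | [], _ => False
  | n :: q, i => (i ≠ [] ∧ n = i.dropLast) ∨ (n ≠ i ∧ Pebbled q i)

/-- Every path from a leaf to the root contains a pebbled node. -/
def Blocked (D : ℕ) (q : List (List Bool)) : Prop :=
  ∀ w : List Bool, w.length = D → ∃ i, i <+: w ∧ Pebbled q i

theorem exists_transition {D : ℕ} (q2 : List (List Bool)) (h2 : Blocked D q2) :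
    ∀ q1 : List (List Bool), ¬ Blocked D (q1 ++ q2) →
      ∃ q3 j q4, q1 ++ q2 = q3 ++ j :: q4 ∧ ¬ Blocked D (j :: q4) ∧ Blocked D q4
  | [], h => absurd h2 h
  | a :: q1, h => by
    by_cases h3 : Blocked D (q1 ++ q2)
    · exact ⟨[], a, q1 ++ q2, rfl, h, h3⟩
    · obtain ⟨q3, j, q4, h4, h5, h6⟩ := exists_transition q2 h2 q1 h3
      exact ⟨a :: q3, j, q4, by rw [List.cons_append, h4]; rfl, h5, h6⟩

theorem blocked_root {D : ℕ} (hD : 1 ≤ D) (q : List (List Bool)) : Blocked D ([] :: q) := by
  intro w hw
  match w, hw with
  | [], hw => simp at hw; omega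
  | b :: w, _ => exact ⟨[b], by simp, Or.inl ⟨by simp, rfl⟩⟩

theorem critical_nodes {D : ℕ} {j : List Bool} {q : List (List Bool)}
    (h1 : ¬ Blocked D (j :: q)) (h2 : Blocked D q) : ∃ w : List Bool, w.length = D ∧
      ∀ n ≤ D, ∃ i : List Bool, i.length ≤ D ∧ Pebbled q i ∧ i.take n = w.take n ∧
        (n < D → i.take (n + 1) ≠ w.take (n + 1)) := by
  unfold Blocked at h1
  push Not at h1
  obtain ⟨w, hw, hno⟩ := h1
  have hj : ∀ i, i <+: w → Pebbled q i → j = i := by
    intro i hi hp
    by_contra hne
    exact hno i hi (Or.inr ⟨hne, hp⟩)
  obtain ⟨i, hi, hp⟩ := h2 w hw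
  obtain rfl := hj i hi hp
  have hjw : j = w := by
    by_contra hne
    have h3 : j.length < w.length := by
      rcases Nat.lt_or_ge j.length w.length with h | h
      · exact h
      · exact absurd (hi.eq_of_length (le_antisymm hi.length_le h)) hne
    refine hno (w.take (j.length + 1)) (List.take_prefix _ _) (Or.inl ⟨?_, ?_⟩)
    · intro h4
      have h5 := congrArg List.length h4
      rw [List.length_take, List.length_nil] at h5
      omega
    · have h4 : (w.take (j.length + 1)).dropLast = w.take j.length := by
        rw [List.dropLast_eq_take, List.length_take, List.take_take]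
        congr 1
        omega
      rw [h4]
      exact List.prefix_iff_eq_take.1 hi
  subst hjw
  refine ⟨j, hw, fun n hn => ?_⟩
  rcases Nat.lt_or_ge n D with hnD | hnD
  · have hnj : n < j.length := by omega
    obtain ⟨i, hi, hp'⟩ := h2 (j.take n ++ (!j[n]) :: List.replicate (D - n - 1) false) (by
      rw [List.length_append, List.length_cons, List.length_replicate, List.length_take]
      omega)
    have h3 : n < i.length := by
      by_contra hcon
      have h4 : i <+: j.take n := by
        refine List.prefix_of_prefix_length_le hi (List.prefix_append _ _) ?_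
        rw [List.length_take]
        omega
      have h5 := hj i (h4.trans (List.take_prefix _ _)) hp'
      rw [← h5] at hcon
      omega
    have h4 : i.take (n + 1) = j.take n ++ [!j[n]] := by
      have h5 : (j.take n ++ (!j[n]) :: List.replicate (D - n - 1) false).take (n + 1) =
          j.take n ++ [!j[n]] := by
        have h6 : (j.take n).length = n := by
          rw [List.length_take]
          omega
        rw [List.take_append, h6, List.take_of_length_le (by omega)]
        simp
      rw [← h5]
      have h6 := List.prefix_iff_eq_take.1 hi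
      rw [h6, List.take_take]
      congr 1
      omega
    refine ⟨i, ?_, hp', ?_, fun _ => ?_⟩
    · have h5 := hi.length_le
      rw [List.length_append, List.length_cons, List.length_replicate, List.length_take] at h5
      omega
    · have h5 := congrArg (List.take n) h4
      rw [List.take_take, Nat.min_eq_left (Nat.le_succ n)] at h5
      rw [h5]
      have h6 : (j.take n).length = n := by
        rw [List.length_take]
        omega
      rw [List.take_append, h6]
      simp
    · rw [h4, List.take_succ_eq_append_getElem hnj]
      intro h7
      have h8 := List.append_cancel_left h7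
      simp at h8
  · exact ⟨j, hw.le, hp, rfl, fun h => absurd h (by omega)⟩

/-- The nodes of the tree with `D + 1` levels. -/
abbrev Node (D : ℕ) : Type := {w : List Bool // w.length ≤ D}

noncomputable instance instFintypeNode (D : ℕ) : Fintype (Node D) :=
  (List.finite_length_le Bool D).fintype

open Classical in
theorem critical_card {D : ℕ} {j : List Bool} {q : List (List Bool)}
    (h1 : ¬ Blocked D (j :: q)) (h2 : Blocked D q) :
    D + 1 ≤ (Finset.univ.filter fun i : Node D => Pebbled q i.1).card := by
  obtain ⟨w, hw, h3⟩ := critical_nodes h1 h2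
  choose! g hg1 hg2 hg3 hg4 using h3
  have h4 : Set.InjOn g (Set.Iic D) := by
    have h5 : ∀ n m, n < m → m ≤ D → g n ≠ g m := by
      intro n m hnm hm h6
      refine hg4 n (by omega) (by omega) ?_
      rw [h6]
      have h7 := congrArg (List.take (n + 1)) (hg3 m hm)
      rw [List.take_take, List.take_take, Nat.min_eq_left (by omega)] at h7
      exact h7
    intro n hn m hm h6
    rcases lt_trichotomy n m with h | h | h
    · exact absurd h6 (h5 n m h hm)
    · exact h
    · exact absurd h6.symm (h5 m n h hn)
  have h5 : ((Finset.univ.filter fun i : Node D => Pebbled q i.1).image Subtype.val).card ≤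
      (Finset.univ.filter fun i : Node D => Pebbled q i.1).card := Finset.card_image_le
  refine le_trans ?_ h5
  have h6 : (Finset.range (D + 1)).card = D + 1 := Finset.card_range _
  rw [← h6]
  refine Finset.card_le_card_of_injOn g ?_ ?_
  · intro n hn
    have hn' : n ≤ D := by
      have := Finset.mem_range.1 hn
      omega
    simp only [Finset.coe_image, Set.mem_image, Finset.coe_filter, Set.mem_ofPred_eq]
    exact ⟨⟨g n, hg1 n hn'⟩, ⟨Finset.mem_univ _, hg2 n hn'⟩, rfl⟩
  · intro n hn m hm h
    refine h4 ?_ ?_ h
    · have := Finset.mem_range.1 hn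
      exact Set.mem_Iic.2 (by omega)
    · have := Finset.mem_range.1 hm
      exact Set.mem_Iic.2 (by omega)

end Pool.Agent.J6H84.TEP
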