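import Pool.Agent.J6H84.TEP.Model
import Pool.Agent.J6H84.TEP.Pebble

/-!
# Deterministic thrifty programs are large
-/

set_option autoImplicit false

namespace Pool.Agent.J6H84.TEP

open Finset

/-- The node of a variable. -/
def Var.node {k : ℕ} : Var k → List Bool
  | .leaf v => v
  | .fn v _ _ => v

/-- Runs from a state to a final state. -/
def Program.Run {k : ℕ} {S : Type} (P : Program k S) (I : Input k) : S → List S → Fin k → Prop
  | s, [], c => P.output s = some c
  | s, t :: l, c => P.output s = none ∧ P.edge s (I.answer (P.label s)) t ∧ P.Run I t l c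

/-- The nodes queried in a run. -/
def Program.nodes {k : ℕ} {S : Type} (P : Program k S) : S → List S → List (List Bool)
  | _, [] => []
  | s, t :: l => (P.label s).node :: P.nodes t l

variable {k : ℕ} {S : Type} {P : Program k S}

theorem Program.run_of_chain {I : Input k} {c : Fin k} (l : List S) (s : S)
    (h1 : List.IsChain (fun s t => P.output s = none ∧ P.edge s (I.answer (P.label s)) t) (s :: l))
    (h2 : ∃ t, (s :: l).getLast? = some t ∧ P.output t = some c) : P.Run I s l c := by
  induction l generalizing s with
  | nil =>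
    obtain ⟨t, h3, h4⟩ := h2
    have h5 : s = t := by simpa using h3
    subst h5
    exact h4
  | cons u l ih =>
    obtain ⟨⟨h3, h4⟩, h5⟩ := List.isChain_cons_cons.1 h1
    exact ⟨h3, h4, ih u h5 (by simpa [List.getLast?_cons_cons] using h2)⟩

theorem Program.run_of_computes {I : Input k} {c : Fin k} {l : List S} (h : P.Computes I l c) :
    ∃ l', l = P.start :: l' ∧ P.Run I P.start l' c := by
  obtain ⟨h1, h2, h3⟩ := h
  match l, h1, h2, h3 with
  | [], h1, _, _ => simp at h1
  | s :: l, h1, h2, h3 =>
    have h4 : s = P.start := by simpa using h1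
    subst h4
    exact ⟨l, rfl, Program.run_of_chain l _ h2 h3⟩

theorem Program.suffix {I : Input k} {c : Fin k} {p : S → Prop} (q1 q2 : List (List Bool)) (s : S)
    (l : List S) (h1 : P.Run I s l c) (h2 : ∀ r ∈ s :: l, p r) (h3 : P.nodes s l = q1 ++ q2) :
    ∃ s' l', P.Run I s' l' c ∧ (∀ r ∈ s' :: l', p r) ∧ P.nodes s' l' = q2 := by
  induction q1 generalizing s l with
  | nil => exact ⟨s, l, h1, h2, h3⟩
  | cons a q1 ih =>
    match l, h1, h2, h3 with
    | [], _, _, h3 => simp [Program.nodes] at h3
    | t :: l, h1, h2, h3 =>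
      refine ih t l h1.2.2 (fun r hr => h2 r (List.mem_cons_of_mem _ hr)) ?_
      exact (List.cons.inj h3).2

theorem Program.diverge (hP : P.IsDeterministic) {I I' : Input k} {c c' : Fin k}
    {i : List Bool} (hI : ∀ x : Var k, x.node ≠ i → x.node ≠ i.dropLast → I.answer x = I'.answer x)
    (l : List S) (s : S) (l' : List S) (h1 : P.Run I s l c) (h2 : P.Run I' s l' c')
    (h3 : Pebbled (P.nodes s l) i) : i ≠ [] ∧
      ∃ r, r ∈ s :: l ∧ r ∈ s :: l' ∧ P.output r = none ∧ (P.label r).node = i.dropLast := by
  induction l generalizing s l' with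
  | nil => exact h3.elim
  | cons t l ih =>
    obtain ⟨h4, h5, h6⟩ := h1
    rcases h3 with ⟨h7, h8⟩ | ⟨h7, h8⟩
    · exact ⟨h7, s, by simp, by simp, h4, h8⟩
    · match l', h2 with
      | [], h2 =>
        have h9 : P.output s = some c' := h2
        rw [h4] at h9
        exact absurd h9 (by simp)
      | t' :: l', h2 =>
        obtain ⟨-, h10, h11⟩ := h2
        by_cases h12 : (P.label s).node = i.dropLast
        · by_cases h13 : i = []
          · subst h13
            exact absurd h12 h7
          · exact ⟨h13, s, by simp, by simp, h4, h12⟩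
        · rw [← hI _ h7 h12] at h10
          have h13 := hP _ _ _ _ h5 h10
          subst h13
          obtain ⟨h14, r, h15, h16, h17, h18⟩ := ih t l' h6 h11 h8
          exact ⟨h14, r, List.mem_cons_of_mem _ h15, List.mem_cons_of_mem _ h16, h17, h18⟩

theorem Program.same_output (hP : P.IsDeterministic) {I I' : Input k} {c c' : Fin k}
    (hI : ∀ x : Var k, x.node ≠ [] → I.answer x = I'.answer x)
    (l : List S) (s : S) (l' : List S) (h1 : P.Run I s l c) (h2 : P.Run I' s l' c')
    (h3 : [] ∉ P.nodes s l) : c = c' := by
  induction l generalizing s l' with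
  | nil =>
    match l', h2 with
    | [], h2 => exact Option.some.inj ((show P.output s = some c from h1).symm.trans h2)
    | t' :: l', h2 =>
      have h4 : P.output s = some c := h1
      rw [h2.1] at h4
      exact absurd h4 (by simp)
  | cons t l ih =>
    obtain ⟨h4, h5, h6⟩ := h1
    match l', h2 with
    | [], h2 =>
      have h9 : P.output s = some c' := h2
      rw [h4] at h9
      exact absurd h9 (by simp)
    | t' :: l', h2 =>
      obtain ⟨-, h10, h11⟩ := h2
      have h12 : (P.label s).node ≠ [] := by
        intro h13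
        exact h3 (by simp [Program.nodes, h13])
      rw [← hI _ h12] at h10
      have h13 := hP _ _ _ _ h5 h10
      subst h13
      exact ih t l' h6 h11 fun h14 => h3 (List.mem_cons_of_mem _ h14)

/-- The input for which the values of the nodes are given by `f`. -/
def inputOf (f : List Bool → Fin k) (x0 : Fin k) : Input k where
  leaf := f
  fn w x y := if x = f (w ++ [false]) ∧ y = f (w ++ [true]) then f w else x0

theorem inputOf_value (f : List Bool → Fin k) (x0 : Fin k) (d : ℕ) (w : List Bool) :
    (inputOf f x0).value d w = f w := by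
  induction d generalizing w with
  | zero => rfl
  | succ d ih =>
    have h : (inputOf f x0).value (d + 1) w =
        (inputOf f x0).fn w ((inputOf f x0).value d (w ++ [false]))
          ((inputOf f x0).value d (w ++ [true])) := rfl
    rw [h, ih, ih]
    simp [inputOf]

theorem inputOf_answer {f : List Bool → Fin k} {x0 : Fin k} {D : ℕ} {x : Var k}
    (h : x.Correct (inputOf f x0) D) : (inputOf f x0).answer x = f x.node := by
  match x, h with
  | .leaf v, _ => rfl
  | .fn v x y, h =>
    obtain ⟨-, h1, h2⟩ := h
    rw [inputOf_value] at h1 h2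
    subst h1 h2
    simp [Input.answer, inputOf, Var.node]

theorem inputOf_update {f : List Bool → Fin k} {x0 : Fin k} {i : List Bool} {a : Fin k} (x : Var k)
    (h1 : x.node ≠ i) (h2 : i ≠ [] → x.node ≠ i.dropLast) :
    (inputOf f x0).answer x = (inputOf (Function.update f i a) x0).answer x := by
  match x, h1, h2 with
  | .leaf v, h1, _ =>
    exact (Function.update_of_ne h1 _ _).symm
  | .fn v x y, h1, h2 =>
    have h3 : ∀ b, v ++ [b] ≠ i := by
      intro b h4
      refine h2 (by rw [← h4]; simp) ?_
      rw [← h4, List.dropLast_concat]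
      rfl
    have h4 : Function.update f i a v = f v := Function.update_of_ne h1 _ _
    simp only [Input.answer, inputOf]
    rw [Function.update_of_ne (h3 false), Function.update_of_ne (h3 true), h4]

theorem exists_run {D : ℕ} (hs : P.Solves (D + 1)) (ht : P.IsThrifty (D + 1)) (f : List Bool → Fin k)
    (x0 : Fin k) : ∃ l, P.Run (inputOf f x0) P.start l (f []) ∧
      ∀ r ∈ P.start :: l, P.output r = none → (P.label r).Correct (inputOf f x0) D := by
  obtain ⟨l, h1, -⟩ := hs (inputOf f x0)
  obtain ⟨l', rfl, h2⟩ := Program.run_of_computes h1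
  rw [inputOf_value] at h2
  exact ⟨l', h2, fun r hr => ht _ _ _ h1 r hr⟩

theorem root_mem {D : ℕ} (hk : 2 ≤ k) (hP : P.IsDeterministic) (hs : P.Solves (D + 1))
    (ht : P.IsThrifty (D + 1)) {f : List Bool → Fin k} {x0 : Fin k} {l : List S}
    (h1 : P.Run (inputOf f x0) P.start l (f [])) : [] ∈ P.nodes P.start l := by
  by_contra h2
  have : Nontrivial (Fin k) := Fin.nontrivial_iff_two_le.2 hk
  obtain ⟨a, ha⟩ := exists_ne (f [])
  obtain ⟨l', h3, -⟩ := exists_run hs ht (Function.update f [] a) x0
  have h4 := Program.same_output hP (fun x hx => inputOf_update x hx fun h => absurd rfl h)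
    l P.start l' h1 h3 h2
  rw [Function.update_self] at h4
  exact ha h4.symm

theorem not_pebbled {D : ℕ} (hk : 2 ≤ k) (hP : P.IsDeterministic) (hs : P.Solves (D + 1))
    (ht : P.IsThrifty (D + 1)) {f : List Bool → Fin k} {x0 : Fin k} {l : List S}
    (h1 : P.Run (inputOf f x0) P.start l (f []))
    (h2 : ∀ r ∈ P.start :: l, P.output r = none → (P.label r).Correct (inputOf f x0) D)
    (i : List Bool) (hi : i.length ≤ D) : ¬ Pebbled (P.nodes P.start l) i := by
  intro h3
  have : Nontrivial (Fin k) := Fin.nontrivial_iff_two_le.2 hk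
  obtain ⟨a, ha⟩ := exists_ne (f i)
  obtain ⟨l', h4, h5⟩ := exists_run hs ht (Function.update f i a) x0
  obtain ⟨h6, r, h7, h8, h9, h10⟩ := Program.diverge hP
    (fun x hx hx' => inputOf_update x hx fun _ => hx') l P.start l' h1 h4 h3
  have h11 := h2 r h7 h9
  have h12 := h5 r h8 h9
  obtain ⟨w, b, rfl⟩ : ∃ w b, i = w ++ [b] := ⟨i.dropLast, i.getLast h6,
    (List.dropLast_append_getLast h6).symm⟩
  rw [List.dropLast_concat] at h10
  rw [List.length_append, List.length_singleton] at hi
  match hl : P.label r with
  | .leaf v =>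
    rw [hl] at h10 h11
    have h13 : v.length = D := h11
    have h14 : v = w := h10
    rw [h14] at h13
    omega
  | .fn v x y =>
    rw [hl] at h10 h11 h12
    have h14 : v = w := h10
    subst h14
    obtain ⟨-, h15, h16⟩ := h11
    obtain ⟨-, h17, h18⟩ := h12
    rw [inputOf_value] at h15 h16 h17 h18
    cases b with
    | false =>
      rw [Function.update_self] at h17
      exact ha (h17.symm.trans h15)
    | true =>
      rw [Function.update_self] at h18
      exact ha (h18.symm.trans h16)

open Classical in
/-- For every input there is a state of its run after which many values are found out by the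
thrifty queries. -/
theorem exists_critical {D : ℕ} (hD : 1 ≤ D) (hk : 2 ≤ k) (hP : P.IsDeterministic)
    (hs : P.Solves (D + 1)) (ht : P.IsThrifty (D + 1)) (f : List Bool → Fin k) (x0 : Fin k) :
    ∃ s l c, P.Run (inputOf f x0) s l c ∧
      (∀ r ∈ s :: l, P.output r = none → (P.label r).Correct (inputOf f x0) D) ∧
      D + 1 ≤ (Finset.univ.filter fun i : Node D => Pebbled (P.nodes s l) i.1).card := by
  obtain ⟨l, h1, h2⟩ := exists_run hs ht f x0
  have h3 := root_mem hk hP hs ht h1
  have h4 := not_pebbled hk hP hs ht h1 h2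
  obtain ⟨q1, q2, h5⟩ := List.append_of_mem h3
  have h6 : ¬ Blocked D (q1 ++ [] :: q2) := by
    intro h7
    obtain ⟨i, hi, hi'⟩ := h7 (List.replicate D false) List.length_replicate
    rw [← h5] at hi'
    refine h4 i ?_ hi'
    have := hi.length_le
    rwa [List.length_replicate] at this
  obtain ⟨q3, j, q4, h7, h8, h9⟩ := exists_transition _ (blocked_root hD q2) q1 h6
  obtain ⟨s, l', h10, h11, h12⟩ := Program.suffix (q3 ++ [j]) q4 P.start l h1 h2 (by
    rw [h5, h7]
    simp)
  refine ⟨s, l', _, h10, h11, ?_⟩
  rw [h12]
  exact critical_card h8 h9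

end Pool.Agent.J6H84.TEP
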