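import Pool.Agent.J6H84.TEP.Final

/-!
# Induced matchings give branching programs
-/

set_option autoImplicit false

namespace Pool.Agent.J6H84.TEP

/-- There is a bipartite graph with `N` vertices on each side whose edges are partitioned into `k`
induced matchings with `M` edges each.  The edge number `z` of the matching number `x` joins the left
vertex `l x z` with the right vertex `r x z`; the last condition says that no edge of another
matching `x` joins a left vertex and a right vertex which are covered by the matching `u`. -/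
def HasInducedMatchings (k M N : ℕ) : Prop :=
  ∃ l r : Fin k → Fin M → Fin N, (∀ x, Function.Injective (l x)) ∧ (∀ x, Function.Injective (r x)) ∧
    ∀ (x u : Fin k) (z z' z'' : Fin M), l x z = l u z' → r x z = r u z'' → x = u

variable {k M N q : ℕ}

/-- The two parts of the number of a vertex. -/
def split (h : N ≤ M * q) (v : Fin N) : Fin M × Fin q := finProdFinEquiv.symm (Fin.castLE h v)

theorem split_injective (h : N ≤ M * q) : Function.Injective (split h) := fun _ _ h1 =>
  Fin.castLE_injective h (finProdFinEquiv.symm.injective h1)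

/-- The contents of the registers. -/
abbrev MReg (M q : ℕ) (n : ℕ) : Type := Fin M × (Fin n → Fin q)

/-- Hiding of a value with the help of a family of maps. -/
def hide (h : N ≤ M * q) (f : Fin k → Fin M → Fin N) (n : ℕ) (x : Fin k) (z : MReg M q n) :
    MReg M q (n + 1) :=
  ((split h (f x z.1)).1, Fin.cons (split h (f x z.1)).2 z.2)

theorem hide_eq {h : N ≤ M * q} {f g : Fin k → Fin M → Fin N} {n : ℕ} {x u : Fin k}
    {z z' : MReg M q n} (h1 : hide h f n x z = hide h g n u z') :
    f x z.1 = g u z'.1 ∧ z.2 = z'.2 := by
  have h2 := congrArg Prod.fst h1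
  have h3 := congrArg Prod.snd h1
  have h4 : (split h (f x z.1)).2 = (split h (g u z'.1)).2 := by
    have := congrFun h3 0
    simpa [hide] using this
  have h5 : z.2 = z'.2 := by
    funext i
    have := congrFun h3 i.succ
    simpa [hide] using this
  exact ⟨split_injective h (Prod.ext h2 h4), h5⟩

/-- The registers which belong to a family of induced matchings. -/
def padsOfMatchings (h : N ≤ M * q) (l r : Fin k → Fin M → Fin N)
    (hl : ∀ x, Function.Injective (l x)) (hr : ∀ x, Function.Injective (r x))
    (H : ∀ (x u : Fin k) (z z' z'' : Fin M), l x z = l u z' → r x z = r u z'' → x = u) :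
    Pads k (MReg M q) where
  before := hide h l
  after := hide h r
  before_inj n x z z' h1 := by
    obtain ⟨h2, h3⟩ := hide_eq h1
    exact Prod.ext (hl x h2) h3
  after_inj n x z z' h1 := by
    obtain ⟨h2, h3⟩ := hide_eq h1
    exact Prod.ext (hr x h2) h3
  key n x u z z' z'' h1 h2 := H x u z'.1 z.1 z''.1 (hide_eq h1).1.symm (hide_eq h2).1

theorem exists_program_of_matchings {h : ℕ} (hk : 2 ≤ k) (hh : 1 ≤ h) (hM : k ≤ M)
    (hN : N ≤ M * q) (H : HasInducedMatchings k M N) :
    ∃ (S : Type) (_ : Fintype S) (P : Program k S), P.Solves h ∧ P.IsThrifty h ∧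
      Fintype.card S ≤ 2 * 4 ^ (h - 1) * ((M * q ^ (h - 1)) ^ 3 * k ^ 2) := by
  obtain ⟨l, r, hl, hr, H⟩ := H
  have hq : 1 ≤ q := by
    rcases Nat.eq_zero_or_pos q with h1 | h1
    · subst h1
      have h2 : 0 < N := (l ⟨0, by omega⟩ ⟨0, by omega⟩).pos
      omega
    · exact h1
  refine exists_program (padsOfMatchings hN l r hl hr H) (⟨0, by omega⟩, Fin.elim0)
    (fun x => (Fin.castLE hM x, Fin.elim0)) ?_ hk hh ?_
  · intro x y hxy
    exact Fin.castLE_injective hM (congrArg Prod.fst hxy)
  · intro i hi
    rw [Fintype.card_prod, Fintype.card_fun, Fintype.card_fin, Fintype.card_fin, Fintype.card_fin]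
    exact Nat.mul_le_mul_left _ (Nat.pow_le_pow_right hq hi)

end Pool.Agent.J6H84.TEP
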