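import Mathlib

/-!
# The Tree Evaluation Problem and thrifty branching programs

The definitions of Cook, McKenzie, Wehr, Braverman and Santhanam.  The complete binary tree of height
`h` has `h` levels; its nodes are the lists of at most `h - 1` booleans, the root is `[]`, the children
of `v` are `v ++ [false]` and `v ++ [true]`, and the leaves are the lists of length `h - 1`.
-/

set_option autoImplicit false

namespace Pool.Agent.J6H84.TEP

/-- An input of the Tree Evaluation Problem over `{0, ..., k - 1}`: an element `leaf v` for every leaf
`v` and a function `fn v` of two variables for every internal node `v` (both are total on lists; only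
the entries which belong to nodes of the tree matter). -/
structure Input (k : ℕ) where
  leaf : List Bool → Fin k
  fn : List Bool → Fin k → Fin k → Fin k

/-- The value of the node `v` which has `d` levels below it. -/
def Input.value {k : ℕ} (I : Input k) : ℕ → List Bool → Fin k
  | 0, v => I.leaf v
  | d + 1, v => I.fn v (I.value d (v ++ [false])) (I.value d (v ++ [true]))

/-- The input variables: `leaf v` is the element at the leaf `v`, and `fn v x y` is the element
`fn v x y`. -/
inductive Var (k : ℕ) where
  | leaf (v : List Bool) : Var k
  | fn (v : List Bool) (x y : Fin k) : Var k

/-- The value of a variable on an input. -/
def Input.answer {k : ℕ} (I : Input k) : Var k → Fin k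
  | .leaf v => I.leaf v
  | .fn v x y => I.fn v x y

/-- The thrifty variables for the input `I` and the tree with `D + 1` levels: the leaves, and the
variables `fn v x y` of internal nodes `v` for which `x` and `y` are the values of the children
of `v`. -/
def Var.Correct {k : ℕ} (I : Input k) (D : ℕ) : Var k → Prop
  | .leaf v => v.length = D
  | .fn v x y => v.length < D ∧ x = I.value (D - (v.length + 1)) (v ++ [false]) ∧
      y = I.value (D - (v.length + 1)) (v ++ [true])

/-- A nondeterministic `k`-way branching program with the set `S` of states.  A state `s` with
`output s = some c` is final, with the output `c`; every other state `s` queries the variable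
`label s`, and `edge s a t` says that there is an edge from `s` to `t` for the answer `a` (there may
be none, one or several edges for the same answer). -/
structure Program (k : ℕ) (S : Type) where
  start : S
  output : S → Option (Fin k)
  label : S → Var k
  edge : S → Fin k → S → Prop

/-- `P.Computes I l c`: the list `l` of states is a computation of `P` on the input `I` from the start
state to a final state with the output `c`. -/
def Program.Computes {k : ℕ} {S : Type} (P : Program k S) (I : Input k) (l : List S) (c : Fin k) :
    Prop :=
  l.head? = some P.start ∧
    List.IsChain (fun s t => P.output s = none ∧ P.edge s (I.answer (P.label s)) t) l ∧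
    ∃ t, l.getLast? = some t ∧ P.output t = some c

/-- `P` solves the Tree Evaluation Problem of height `h` unambiguously: on every input there is
exactly one computation from the start state to a final state, and its output is the value of the
root. -/
def Program.Solves {k : ℕ} {S : Type} (P : Program k S) (h : ℕ) : Prop :=
  ∀ I : Input k, ∃ l, P.Computes I l (I.value (h - 1) []) ∧
    ∀ l' c', P.Computes I l' c' → l' = l ∧ c' = I.value (h - 1) []

/-- `P` is thrifty: on every input, every computation which ends in a final state queries thrifty
variables only. -/
def Program.IsThrifty {k : ℕ} {S : Type} (P : Program k S) (h : ℕ) : Prop :=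
  ∀ (I : Input k) (l : List S) (c : Fin k), P.Computes I l c →
    ∀ s ∈ l, P.output s = none → (P.label s).Correct I (h - 1)

/-- `P` is deterministic: every state has at most one edge for every answer. -/
def Program.IsDeterministic {k : ℕ} {S : Type} (P : Program k S) : Prop :=
  ∀ s a t t', P.edge s a t → P.edge s a t' → t = t'

end Pool.Agent.J6H84.TEP
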