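import Pool.Agent.J6H84.TEP.Matchings

/-!
# Induced matchings from codes

The vertices of the graph are points of a box with a tag, the tag being a rounded square of the norm
modulo a small number.
-/

set_option autoImplicit false

namespace Pool.Agent.J6H84.TEP

open Finset

variable {k M N : ℕ}

theorem hasInducedMatchings_of_types {X W : Type} [Fintype X] [Fintype W]
    (hX : Fintype.card X = M) (hW : Fintype.card W = N) (l r : Fin k → X → W)
    (hl : ∀ x, Function.Injective (l x)) (hr : ∀ x, Function.Injective (r x))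
    (H : ∀ (x u : Fin k) (z z' z'' : X), l x z = l u z' → r x z = r u z'' → x = u) :
    HasInducedMatchings k M N := by
  let eX := Fintype.equivFinOfCardEq hX
  let eW := Fintype.equivFinOfCardEq hW
  refine ⟨fun x z => eW (l x (eX.symm z)), fun x z => eW (r x (eX.symm z)), ?_, ?_, ?_⟩
  · intro x z z' h
    exact eX.symm.injective (hl x (eW.injective h))
  · intro x z z' h
    exact eX.symm.injective (hr x (eW.injective h))
  · intro x u z z' z'' h1 h2
    exact H x u _ _ _ (eW.injective h1) (eW.injective h2)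

/-- Arithmetic of the tags. -/
theorem tag_arith {g Q A B C : ℕ} {c s : ℤ} (hg : 1 ≤ g) (h1 : (A : ℤ) + C = 2 * B + 2 * c)
    (h2 : (g : ℤ) ≤ c) (h3 : c ≤ s) (h4 : 2 * s + 2 * g ≤ g * Q) (h5 : A / g % Q = B / g % Q)
    (h6 : A / g % Q = C / g % Q) : False := by
  have a1 := Nat.div_add_mod A g
  have b1 := Nat.div_add_mod B g
  have c1 := Nat.div_add_mod C g
  have a2 := Nat.mod_lt A (show 0 < g by omega)
  have b2 := Nat.mod_lt B (show 0 < g by omega)
  have c2 := Nat.mod_lt C (show 0 < g by omega)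
  obtain ⟨t, ht⟩ : ∃ t : ℤ, t = (A / g : ℕ) + (C / g : ℕ) - 2 * (B / g : ℕ) := ⟨_, rfl⟩
  have h7 : (Q : ℤ) ∣ t := by
    have e1 : (Q : ℤ) ∣ (A / g : ℕ) - (B / g : ℕ) :=
      Int.ModEq.dvd (Int.natCast_modEq_iff.2 h5.symm)
    have e2 : (Q : ℤ) ∣ (C / g : ℕ) - (B / g : ℕ) :=
      Int.ModEq.dvd (Int.natCast_modEq_iff.2 (h5.symm.trans h6))
    have e3 : t = ((A / g : ℕ) - (B / g : ℕ)) + ((C / g : ℕ) - (B / g : ℕ)) := by
      rw [ht]
      ring
    rw [e3]
    exact dvd_add e1 e2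
  have a3 : (g : ℤ) * (A / g : ℕ) + (A % g : ℕ) = A := by exact_mod_cast a1
  have b3 : (g : ℤ) * (B / g : ℕ) + (B % g : ℕ) = B := by exact_mod_cast b1
  have c3 : (g : ℤ) * (C / g : ℕ) + (C % g : ℕ) = C := by exact_mod_cast c1
  have h8 : (g : ℤ) * t = 2 * c - (A % g : ℕ) - (C % g : ℕ) + 2 * (B % g : ℕ) := by
    rw [ht]
    linarith
  have a4 : ((A % g : ℕ) : ℤ) + 1 ≤ g := by exact_mod_cast a2
  have b4 : ((B % g : ℕ) : ℤ) + 1 ≤ g := by exact_mod_cast b2
  have c4 : ((C % g : ℕ) : ℤ) + 1 ≤ g := by exact_mod_cast c2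
  have a5 : (0 : ℤ) ≤ (A % g : ℕ) := Int.natCast_nonneg _
  have b5 : (0 : ℤ) ≤ (B % g : ℕ) := Int.natCast_nonneg _
  have c5 : (0 : ℤ) ≤ (C % g : ℕ) := Int.natCast_nonneg _
  have h9 : 0 < (g : ℤ) * t := by linarith
  have h10 : (g : ℤ) * t < g * Q := by linarith
  have hg' : (0 : ℤ) < g := by exact_mod_cast hg
  have h11 : 0 < t := (mul_pos_iff_of_pos_left hg').1 h9
  have h12 : t < Q := lt_of_mul_lt_mul_left h10 hg'.le
  exact absurd (Int.le_of_dvd h11 h7) (by omega)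

theorem hasInducedMatchings_of_code {m p g Q N0 : ℕ} (e : Fin k → Fin m → ℕ)
    (he : ∀ x j, e x j < p) (hg : 1 ≤ g)
    (hmin : ∀ x u, x ≠ u → (g : ℤ) ≤ ∑ j, ((e x j : ℤ) - e u j) ^ 2)
    (hQ : 2 * (m * p ^ 2) + 2 * g ≤ g * Q) :
    HasInducedMatchings k (N0 ^ m) ((N0 + 2 * p) ^ m * Q) := by
  have hQ1 : 0 < Q := by
    rcases Nat.eq_zero_or_pos Q with h | h
    · subst h
      omega
    · exact h
  have hlt1 : ∀ (x : Fin k) (z : Fin m → Fin N0) (j : Fin m), (z j : ℕ) + e x j < N0 + 2 * p := by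
    intro x z j
    have h1 := (z j).2
    have h2 := he x j
    omega
  have hlt2 : ∀ (x : Fin k) (z : Fin m → Fin N0) (j : Fin m),
      (z j : ℕ) + 2 * e x j < N0 + 2 * p := by
    intro x z j
    have h1 := (z j).2
    have h2 := he x j
    omega
  refine hasInducedMatchings_of_types (X := Fin m → Fin N0)
    (W := (Fin m → Fin (N0 + 2 * p)) × Fin Q) (by simp) (by simp)
    (fun x z => (fun j => ⟨z j + e x j, hlt1 x z j⟩,
      ⟨(∑ j, (z j : ℕ) ^ 2) / g % Q, Nat.mod_lt _ hQ1⟩))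
    (fun x z => (fun j => ⟨z j + 2 * e x j, hlt2 x z j⟩,
      ⟨(∑ j, (z j : ℕ) ^ 2) / g % Q, Nat.mod_lt _ hQ1⟩)) ?_ ?_ ?_
  · intro x z z' h
    funext j
    have h1 := congrArg Fin.val (congrFun (congrArg Prod.fst h) j)
    exact Fin.ext (Nat.add_right_cancel h1)
  · intro x z z' h
    funext j
    have h1 := congrArg Fin.val (congrFun (congrArg Prod.fst h) j)
    exact Fin.ext (Nat.add_right_cancel h1)
  · intro x u z z' z'' h1 h2
    by_contra hxu
    have h3 : ∀ j, (z j : ℕ) + e x j = z' j + e u j := fun j =>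
      congrArg Fin.val (congrFun (congrArg Prod.fst h1) j)
    have h4 : ∀ j, (z j : ℕ) + 2 * e x j = z'' j + 2 * e u j := fun j =>
      congrArg Fin.val (congrFun (congrArg Prod.fst h2) j)
    have h5 : (∑ j, (z j : ℕ) ^ 2) / g % Q = (∑ j, (z' j : ℕ) ^ 2) / g % Q :=
      congrArg Fin.val (congrArg Prod.snd h1)
    have h6 : (∑ j, (z j : ℕ) ^ 2) / g % Q = (∑ j, (z'' j : ℕ) ^ 2) / g % Q :=
      congrArg Fin.val (congrArg Prod.snd h2)
    have h7 : (((∑ j, (z j : ℕ) ^ 2 : ℕ)) : ℤ) + ((∑ j, (z'' j : ℕ) ^ 2 : ℕ)) =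
        2 * ((∑ j, (z' j : ℕ) ^ 2 : ℕ)) + 2 * ∑ j, ((e x j : ℤ) - e u j) ^ 2 := by
      push_cast
      rw [mul_sum, mul_sum, ← sum_add_distrib, ← sum_add_distrib]
      refine sum_congr rfl fun j _ => ?_
      have e1 : ((z' j : ℕ) : ℤ) = (z j : ℕ) + ((e x j : ℤ) - e u j) := by
        have := h3 j
        omega
      have e2 : ((z'' j : ℕ) : ℤ) = (z j : ℕ) + 2 * ((e x j : ℤ) - e u j) := by
        have := h4 j
        omega
      rw [e1, e2]
      ring
    have h8 : ∑ j, ((e x j : ℤ) - e u j) ^ 2 ≤ m * p ^ 2 := by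
      have h9 : ∑ j : Fin m, ((e x j : ℤ) - e u j) ^ 2 ≤ ∑ _j : Fin m, (p : ℤ) ^ 2 := by
        refine sum_le_sum fun j _ => ?_
        have a1 := he x j
        have a2 := he u j
        refine sq_le_sq' ?_ ?_
        · omega
        · omega
      simpa using h9
    refine tag_arith hg h7 (hmin x u hxu) h8 ?_ h5 h6
    exact_mod_cast hQ

end Pool.Agent.J6H84.TEP
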