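import Pool.Agent.J6H84.TEP.Norm
import Pool.Agent.J6H84.TEP.Code

/-!
# Estimates
-/

set_option autoImplicit false

namespace Pool.Agent.J6H84.TEP

theorem succ_pow_le {m : ℕ} (hm : 1 ≤ m) : (m + 1) ^ m ≤ 3 * m ^ m := by
  have hm0 : (0 : ℝ) < m := by exact_mod_cast hm
  have h1 : (1 + 1 / (m : ℝ)) ^ m ≤ 3 := by
    have h2 : 1 + 1 / (m : ℝ) ≤ Real.exp (1 / m) := by
      have := Real.add_one_le_exp (1 / (m : ℝ))
      linarith
    calc (1 + 1 / (m : ℝ)) ^ m ≤ (Real.exp (1 / m)) ^ m :=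
          pow_le_pow_left₀ (by positivity) h2 m
      _ = Real.exp (m * (1 / m)) := (Real.exp_nat_mul _ _).symm
      _ = Real.exp 1 := by rw [mul_one_div_cancel hm0.ne']
      _ ≤ 3 := by
        have := Real.exp_one_lt_d9
        linarith
  have h2 : ((m : ℝ) + 1) ^ m ≤ 3 * m ^ m := by
    have h3 : (m : ℝ) + 1 = (1 + 1 / m) * m := by field_simp
    rw [h3, mul_pow]
    exact mul_le_mul_of_nonneg_right h1 (by positivity)
  exact_mod_cast h2

theorem box_growth {p m : ℕ} (hm : 1 ≤ m) : (2 * p * m + 2 * p) ^ m ≤ (2 * p * m) ^ m * 3 := by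
  calc (2 * p * m + 2 * p) ^ m = (2 * p) ^ m * (m + 1) ^ m := by
        rw [← mul_pow]
        congr 1
    _ ≤ (2 * p) ^ m * (3 * m ^ m) := Nat.mul_le_mul_left _ (succ_pow_le hm)
    _ = (2 * p * m) ^ m * 3 := by
        rw [mul_pow (2 * p) m m]
        ring

/-- The branching program which belongs to a code. -/
theorem exists_program_of_code {k m p g Q h : ℕ} (hk : 2 ≤ k) (hh : 1 ≤ h) (hm : 1 ≤ m)
    (hkp : k ≤ p ^ m) (e : Fin k → Fin m → ℕ)
    (he : ∀ x j, e x j < p) (hg : 1 ≤ g)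
    (hmin : ∀ x u, x ≠ u → (g : ℤ) ≤ ∑ j, ((e x j : ℤ) - e u j) ^ 2)
    (hQ : 2 * (m * p ^ 2) + 2 * g ≤ g * Q) :
    ∃ (S : Type) (_ : Fintype S) (P : Program k S), P.Solves h ∧ P.IsThrifty h ∧
      Fintype.card S ≤
        2 * 4 ^ (h - 1) * (((2 * p * m) ^ m * (3 * Q) ^ (h - 1)) ^ 3 * k ^ 2) := by
  refine exists_program_of_matchings (N := (2 * p * m + 2 * p) ^ m * Q) hk hh ?_ ?_
    (hasInducedMatchings_of_code e he hg hmin hQ)
  · refine hkp.trans (Nat.pow_le_pow_left ?_ m)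
    calc p = p * 1 := (Nat.mul_one p).symm
      _ ≤ (2 * p) * m := Nat.mul_le_mul (by omega) hm
  · calc (2 * p * m + 2 * p) ^ m * Q ≤ (2 * p * m) ^ m * 3 * Q :=
          Nat.mul_le_mul_right _ (box_growth hm)
      _ = (2 * p * m) ^ m * (3 * Q) := by ring

/-- The estimate for trees of a fixed height. -/
theorem fixed_height {h : ℕ} (hh : 1 ≤ h) {q : ℕ} (hq : 1 ≤ q) : ∃ C : ℕ, ∀ k : ℕ, 2 ≤ k →
    ∃ (S : Type) (_ : Fintype S) (P : Program k S), P.Solves h ∧ P.IsThrifty h ∧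
      Fintype.card S ^ q ≤ C * k ^ (5 * q + 1) := by
  obtain ⟨m, hm⟩ : ∃ m, m = 6 * h * q := ⟨_, rfl⟩
  have hm1 : 1 ≤ m := by
    rw [hm]
    exact Nat.mul_pos (Nat.mul_pos (by norm_num) hh) hq
  obtain ⟨A, hA⟩ : ∃ A, A = 2 * 4 ^ (h - 1) * ((2 * m) ^ m * (12 * m) ^ h) ^ 3 := ⟨_, rfl⟩
  refine ⟨A ^ q * (2 ^ (3 * m * q) * 2 ^ m), fun k hk => ?_⟩
  have hex : ∃ p, k ≤ p ^ m := ⟨k, Nat.le_self_pow (by omega) k⟩
  obtain ⟨p, hp⟩ : ∃ p, p = Nat.find hex := ⟨_, rfl⟩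
  have h1 : k ≤ p ^ m := by
    rw [hp]
    exact Nat.find_spec hex
  have hp2 : 2 ≤ p := by
    by_contra hcon
    have h2 : p ^ m ≤ 1 := by
      have h3 : p ≤ 1 := by omega
      calc p ^ m ≤ 1 ^ m := Nat.pow_le_pow_left h3 m
        _ = 1 := one_pow m
    omega
  have h2 : (p - 1) ^ m < k := by
    have h3 : ¬ k ≤ (p - 1) ^ m := Nat.find_min hex (by omega)
    omega
  have h3 : p ^ m ≤ 2 ^ m * k := by
    calc p ^ m ≤ (2 * (p - 1)) ^ m := Nat.pow_le_pow_left (by omega) m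
      _ = 2 ^ m * (p - 1) ^ m := mul_pow _ _ _
      _ ≤ 2 ^ m * k := Nat.mul_le_mul_left _ h2.le
  obtain ⟨e, he, hmin⟩ := exists_digits h1
  obtain ⟨S, iS, P, s1, s2, s3⟩ := exists_program_of_code (g := 1) (Q := 2 * (m * p ^ 2) + 2) (h := h)
    hk hh hm1 h1 e he le_rfl hmin (by omega)
  refine ⟨S, iS, P, s1, s2, ?_⟩
  have h5 : 3 * (2 * (m * p ^ 2) + 2) ≤ 12 * m * p ^ 2 := by
    have h6 : 1 ≤ m * p ^ 2 := Nat.mul_pos hm1 (Nat.pow_pos (by omega))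
    have h7 : 12 * m * p ^ 2 = 12 * (m * p ^ 2) := by ring
    omega
  have h6 : (3 * (2 * (m * p ^ 2) + 2)) ^ (h - 1) ≤ (12 * m) ^ h * p ^ (2 * h) := by
    calc (3 * (2 * (m * p ^ 2) + 2)) ^ (h - 1) ≤ (12 * m * p ^ 2) ^ (h - 1) :=
          Nat.pow_le_pow_left h5 _
      _ ≤ (12 * m * p ^ 2) ^ h := Nat.pow_le_pow_right (Nat.mul_pos (Nat.mul_pos (by norm_num) hm1)
          (Nat.pow_pos (by omega))) (by omega)
      _ = (12 * m) ^ h * p ^ (2 * h) := by rw [mul_pow, ← pow_mul]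
  have h7 : Fintype.card S ≤ A * ((p ^ m) ^ 3 * p ^ (6 * h) * k ^ 2) := by
    calc Fintype.card S
        ≤ 2 * 4 ^ (h - 1) *
          (((2 * p * m) ^ m * (3 * (2 * (m * p ^ 2) + 2)) ^ (h - 1)) ^ 3 * k ^ 2) := s3
      _ ≤ 2 * 4 ^ (h - 1) * (((2 * p * m) ^ m * ((12 * m) ^ h * p ^ (2 * h))) ^ 3 * k ^ 2) :=
          Nat.mul_le_mul_left _ (Nat.mul_le_mul_right _ (Nat.pow_le_pow_left
            (Nat.mul_le_mul_left _ h6) 3))
      _ = _ := by
          have e1 : p ^ (6 * h) = (p ^ (2 * h)) ^ 3 := by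
            rw [← pow_mul]
            congr 1
            ring
          have e2 : (2 * p * m) ^ m = (2 * m) ^ m * p ^ m := by
            rw [← mul_pow]
            congr 1
            ring
          rw [hA, e1, e2]
          ring
  calc Fintype.card S ^ q
      ≤ (A * ((p ^ m) ^ 3 * p ^ (6 * h) * k ^ 2)) ^ q := Nat.pow_le_pow_left h7 q
    _ = A ^ q * ((p ^ m) ^ (3 * q) * p ^ m * k ^ (2 * q)) := by
        have e1 : p ^ m = (p ^ (6 * h)) ^ q := by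
          rw [← pow_mul, hm]
        rw [mul_pow, mul_pow, mul_pow, ← pow_mul (p ^ m) 3 q, ← e1, ← pow_mul k 2 q]
    _ ≤ A ^ q * ((2 ^ m * k) ^ (3 * q) * (2 ^ m * k) * k ^ (2 * q)) := by
        refine Nat.mul_le_mul_left _ (Nat.mul_le_mul_right _ (Nat.mul_le_mul
          (Nat.pow_le_pow_left h3 _) h3))
    _ = A ^ q * (2 ^ (3 * m * q) * 2 ^ m) * k ^ (5 * q + 1) := by
        have e1 : (2 : ℕ) ^ (3 * m * q) = (2 ^ m) ^ (3 * q) := by
          rw [← pow_mul]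
          congr 1
          ring
        have e2 : k ^ (5 * q + 1) = k ^ (3 * q) * k * k ^ (2 * q) := by
          rw [← pow_succ, ← pow_add]
          congr 1
          ring
        rw [e1, e2, mul_pow]
        ring

/-- The estimate with a parameter. -/
theorem all_heights {h k : ℕ} (hh : 1 ≤ h) (hk : 2 ≤ k) (a : ℕ) :
    ∃ (S : Type) (_ : Fintype S) (P : Program k S), P.Solves h ∧ P.IsThrifty h ∧
      Fintype.card S ≤ k ^ 17 * (Nat.log 2 k / (a + 1) + 1) ^ (3 * (Nat.log 2 k / (a + 1) + 1)) *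
        2 ^ ((12 * a + 38) * h) := by
  obtain ⟨L, hL⟩ : ∃ L, L = Nat.log 2 k := ⟨_, rfl⟩
  obtain ⟨m, hm⟩ : ∃ m, m = L / (a + 1) + 1 := ⟨_, rfl⟩
  rw [← hL, ← hm]
  have hm1 : 1 ≤ m := by
    rw [hm]
    exact Nat.le_add_left 1 _
  have h1 : L + 1 ≤ (a + 1) * m := by
    rw [hm]
    exact Nat.lt_mul_div_succ L (show 0 < a + 1 by omega)
  have h2 : k ≤ 2 ^ ((a + 1) * m) := by
    have h3 : k < 2 ^ (L + 1) := by
      rw [hL]
      exact Nat.lt_pow_succ_log_self (by norm_num) k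
    exact h3.le.trans (Nat.pow_le_pow_right (by norm_num) h1)
  obtain ⟨p, hp⟩ : ∃ p, p = 2 ^ (2 * a + 4) := ⟨_, rfl⟩
  obtain ⟨g, hg⟩ : ∃ g, g = (m + 1) / 2 := ⟨_, rfl⟩
  have hp2 : 2 ≤ p := by
    rw [hp]
    exact Nat.le_self_pow (by omega) 2
  have h3 : k * (2 ^ m * p ^ (g - 1)) ≤ p ^ m := by
    calc k * (2 ^ m * p ^ (g - 1)) ≤ 2 ^ ((a + 1) * m) * (2 ^ m * 2 ^ ((a + 2) * m)) := by
          refine Nat.mul_le_mul h2 (Nat.mul_le_mul_left _ ?_)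
          rw [hp, ← pow_mul]
          refine Nat.pow_le_pow_right (by norm_num) ?_
          have h4 : 2 * (g - 1) ≤ m := by omega
          calc (2 * a + 4) * (g - 1) = (a + 2) * (2 * (g - 1)) := by ring
            _ ≤ (a + 2) * m := Nat.mul_le_mul_left _ h4
      _ = p ^ m := by
          rw [hp, ← pow_mul, ← pow_add, ← pow_add]
          congr 1
          ring
  have h4 : k ≤ p ^ m := by
    calc k ≤ k * (2 ^ m * p ^ (g - 1)) :=
          Nat.le_mul_of_pos_right _ (Nat.mul_pos (by positivity) (Nat.pow_pos (by omega)))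
      _ ≤ p ^ m := h3
  obtain ⟨e, he, hmin⟩ := exists_code (by omega) (show 1 ≤ g by omega) h3
  obtain ⟨S, iS, P, s1, s2, s3⟩ := exists_program_of_code (g := g) (Q := 4 * p ^ 2 + 2) (h := h)
    hk hh hm1 h4 e he (by omega) hmin (by
      have h5 : m * p ^ 2 ≤ (2 * g) * p ^ 2 := Nat.mul_le_mul_right _ (by omega)
      have h6 : g * (4 * p ^ 2 + 2) = 2 * ((2 * g) * p ^ 2) + 2 * g := by ring
      omega)
  refine ⟨S, iS, P, s1, s2, s3.trans ?_⟩
  have h5 : 3 * (4 * p ^ 2 + 2) ≤ 2 ^ (4 * a + 12) := by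
    have h6 : 4 ≤ p ^ 2 := by nlinarith
    calc 3 * (4 * p ^ 2 + 2) ≤ 16 * p ^ 2 := by omega
      _ = 2 ^ (4 * a + 12) := by
        rw [hp, ← pow_mul]
        have : (16 : ℕ) = 2 ^ 4 := by norm_num
        rw [this, ← pow_add]
        congr 1
        ring
  have h6 : (2 * p * m) ^ m = 2 ^ ((2 * a + 5) * m) * m ^ m := by
    rw [mul_pow, hp, pow_mul]
    congr 2
    rw [pow_succ' 2 (2 * a + 4)]
  have h7 : 2 ^ ((2 * a + 5) * m) ≤ k ^ 5 * 2 ^ (2 * a + 5) := by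
    have h8 : (2 * a + 5) * m ≤ 5 * L + (2 * a + 5) := by
      have h9 : (2 * a + 5) * (L / (a + 1)) ≤ 5 * L := by
        calc (2 * a + 5) * (L / (a + 1)) ≤ (5 * (a + 1)) * (L / (a + 1)) :=
              Nat.mul_le_mul_right _ (by omega)
          _ = 5 * ((a + 1) * (L / (a + 1))) := by ring
          _ ≤ 5 * L := Nat.mul_le_mul_left _ (Nat.mul_div_le L (a + 1))
      rw [hm, Nat.mul_add, Nat.mul_one]
      omega
    calc 2 ^ ((2 * a + 5) * m) ≤ 2 ^ (5 * L + (2 * a + 5)) :=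
          Nat.pow_le_pow_right (by norm_num) h8
      _ = (2 ^ L) ^ 5 * 2 ^ (2 * a + 5) := by
          rw [pow_add, ← pow_mul]
          congr 2
          ring
      _ ≤ k ^ 5 * 2 ^ (2 * a + 5) := by
          refine Nat.mul_le_mul_right _ (Nat.pow_le_pow_left ?_ 5)
          rw [hL]
          exact Nat.pow_log_le_self 2 (by omega)
  have h8 : (2 * p * m) ^ m * (3 * (4 * p ^ 2 + 2)) ^ (h - 1) ≤
      (k ^ 5 * 2 ^ (2 * a + 5) * m ^ m) * 2 ^ ((4 * a + 12) * (h - 1)) := by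
    rw [h6]
    refine Nat.mul_le_mul (Nat.mul_le_mul_right _ h7) ?_
    rw [pow_mul]
    exact Nat.pow_le_pow_left h5 _
  calc 2 * 4 ^ (h - 1) * (((2 * p * m) ^ m * (3 * (4 * p ^ 2 + 2)) ^ (h - 1)) ^ 3 * k ^ 2)
      ≤ 2 * 4 ^ (h - 1) * (((k ^ 5 * 2 ^ (2 * a + 5) * m ^ m) *
          2 ^ ((4 * a + 12) * (h - 1))) ^ 3 * k ^ 2) :=
        Nat.mul_le_mul_left _ (Nat.mul_le_mul_right _ (Nat.pow_le_pow_left h8 3))
    _ = k ^ 17 * m ^ (3 * m) *
        (2 ^ 1 * 2 ^ (2 * (h - 1)) * 2 ^ (3 * (2 * a + 5)) * 2 ^ (3 * ((4 * a + 12) * (h - 1)))) := by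
        have e1 : (4 : ℕ) ^ (h - 1) = 2 ^ (2 * (h - 1)) := by
          rw [pow_mul]
          norm_num
        have e2 : (2 : ℕ) ^ (3 * (2 * a + 5)) = (2 ^ (2 * a + 5)) ^ 3 := by
          rw [← pow_mul, Nat.mul_comm]
        have e3 : (2 : ℕ) ^ (3 * ((4 * a + 12) * (h - 1))) = (2 ^ ((4 * a + 12) * (h - 1))) ^ 3 := by
          rw [← pow_mul, Nat.mul_comm]
        have e4 : m ^ (3 * m) = (m ^ m) ^ 3 := by
          rw [← pow_mul, Nat.mul_comm]
        rw [e1, e2, e3, e4]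
        ring
    _ ≤ k ^ 17 * m ^ (3 * m) * 2 ^ ((12 * a + 38) * h) := by
        refine Nat.mul_le_mul_left _ ?_
        rw [← pow_add, ← pow_add, ← pow_add]
        refine Nat.pow_le_pow_right (by norm_num) ?_
        obtain ⟨d, rfl⟩ : ∃ d, h = d + 1 := ⟨h - 1, by omega⟩
        have e1 : d + 1 - 1 = d := rfl
        rw [e1]
        nlinarith

end Pool.Agent.J6H84.TEP
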