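import Pool.Agent.J6H84.TEP.Five

/-!
# The recursive construction
-/

set_option autoImplicit false

namespace Pool.Agent.J6H84.TEP

/-- Registers with two ways of hiding a value: the contents of a register at the level `n` form the
type `Reg n`, and the value `x` is hidden by `before n x` and by `after n x`. -/
structure Pads (k : ℕ) (Reg : ℕ → Type) where
  before : (n : ℕ) → Fin k → Reg n → Reg (n + 1)
  after : (n : ℕ) → Fin k → Reg n → Reg (n + 1)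
  before_inj : ∀ n x, Function.Injective (before n x)
  after_inj : ∀ n x, Function.Injective (after n x)
  key : ∀ n x u z z' z'', before n u z = before n x z' → after n x z' = after n u z'' → x = u

variable {k : ℕ} {Reg : ℕ → Type}

/-- The key property: all three contents agree. -/
theorem Pads.key' (T : Pads k Reg) {n : ℕ} {a x : Fin k} {z z' z'' : Reg n} {y y' : Reg (n + 1)}
    (h1 : T.before n a z = y) (h2 : T.before n x z' = y) (h3 : T.after n x z' = y')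
    (h4 : T.after n a z'' = y') : x = a ∧ z' = z ∧ z'' = z := by
  have h5 : x = a := T.key n x a z z' z'' (h1.trans h2.symm) (h3.trans h4.symm)
  subst h5
  have h6 : z' = z := T.before_inj n x (h2.trans h1.symm)
  have h7 : z'' = z' := T.after_inj n x (h4.trans h3.symm)
  exact ⟨rfl, h6, h7.trans h6⟩

/-- The relation computed by the fragment for the node `w` with `d` levels below it. -/
def ProcRel (d : ℕ) (w : List Bool) {a b c f : ℕ} (P : Reg a → Fin k → Reg b → Prop)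
    (I : Input k) (x : Reg a × Reg c × Reg f) (y : Reg b × Reg c × Reg f) : Prop :=
  y.2 = x.2 ∧ P x.1 (I.value d w) y.1

theorem exists_leaf [∀ n, Fintype (Reg n)] {D K M : ℕ} (hk : 1 ≤ k)
    (hK : ∀ i ≤ M, Fintype.card (Reg i) ≤ K)
    (w : List Bool) (hw : w.length = D) {a b c f : ℕ} (ha : a ≤ M) (hc : c ≤ M) (hf : f ≤ M)
    (P : Reg a → Fin k → Reg b → Prop) :
    ∃ F : Frag k (Reg a × Reg c × Reg f) (Reg b × Reg c × Reg f),
      Does F (ProcRel 0 w P) (fun I v => v.Correct I D) ∧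
        F.card + K ^ 3 * k ^ 2 ≤ 2 * 4 ^ 0 * (K ^ 3 * k ^ 2) := by
  refine ⟨Frag.query (Reg a × Reg c × Reg f) (fun _ => Var.leaf w)
    (fun x t => t = x) (fun t v y => y.2 = t.2 ∧ P t.1 v y.1), ⟨?_, ?_, ?_⟩, ?_⟩
  · intro I x l y h
    obtain ⟨t, h1, h2, h3⟩ := (Frag.query_run _ _ _ _ _ _ _ _).1 h
    subst h1 h2
    exact ⟨h3, fun s _ => hw⟩
  · intro I x y h
    exact ⟨[x], (Frag.query_run _ _ _ _ _ _ _ _).2 ⟨x, rfl, rfl, h⟩⟩
  · intro I x y l l' h h'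
    obtain ⟨t, h1, h2, h3⟩ := (Frag.query_run _ _ _ _ _ _ _ _).1 h
    obtain ⟨t', h1', h2', h3'⟩ := (Frag.query_run _ _ _ _ _ _ _ _).1 h'
    subst h1 h2 h1' h2'
    rfl
  · have h1 : Fintype.card (Reg a × Reg c × Reg f) ≤ K * (K * K) := by
      rw [Fintype.card_prod, Fintype.card_prod]
      exact Nat.mul_le_mul (hK a ha) (Nat.mul_le_mul (hK c hc) (hK f hf))
    have h2 : (K * (K * K)) * 1 ≤ K ^ 3 * k ^ 2 := by
      have h3 : 1 ≤ k ^ 2 := Nat.one_le_pow _ _ hk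
      calc (K * (K * K)) * 1 = K ^ 3 * 1 := by ring
        _ ≤ K ^ 3 * k ^ 2 := Nat.mul_le_mul_left _ h3
    have h4 : (Frag.query (k := k) (A := Reg a × Reg c × Reg f)
      (B := Reg b × Reg c × Reg f) (Reg a × Reg c × Reg f)
      (fun _ => Var.leaf w)
      (fun x t => t = x) (fun t v y => y.2 = t.2 ∧ P t.1 v y.1)).card =
        Fintype.card (Reg a × Reg c × Reg f) := rfl
    rw [h4]
    omega

/-- The states which make the query at an internal node. -/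
abbrev Mid (k : ℕ) (Reg : ℕ → Type) (a c f : ℕ) : Type := Reg a × Reg c × Reg f × Fin k × Fin k

theorem card_mid_le [∀ n, Fintype (Reg n)] {K M a c f : ℕ}
    (hK : ∀ i ≤ M, Fintype.card (Reg i) ≤ K) (ha : a ≤ M)
    (hc : c ≤ M) (hf : f ≤ M) : Fintype.card (Mid k Reg a c f) ≤ K ^ 3 * k ^ 2 := by
  rw [Fintype.card_prod, Fintype.card_prod, Fintype.card_prod, Fintype.card_prod, Fintype.card_fin]
  calc Fintype.card (Reg a) * (Fintype.card (Reg c) * (Fintype.card (Reg f) * (k * k)))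
      ≤ K * (K * (K * (k * k))) := Nat.mul_le_mul (hK a ha) (Nat.mul_le_mul (hK c hc)
        (Nat.mul_le_mul (hK f hf) le_rfl))
    _ = K ^ 3 * k ^ 2 := by ring

theorem exists_node [∀ n, Fintype (Reg n)] (T : Pads k Reg) {D d : ℕ} (w : List Bool)
    (hw : w.length + (d + 1) = D) {a b c f : ℕ} (P : Reg a → Fin k → Reg b → Prop)
    {F1 : Frag k (Reg c × Reg a × Reg f) (Reg (c + 1) × Reg a × Reg f)}
    {F2 : Frag k (Reg f × Reg a × Reg (c + 1)) (Reg (f + 1) × Reg a × Reg (c + 1))}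
    {F4 : Frag k (Reg (f + 1) × Reg b × Reg (c + 1)) (Reg f × Reg b × Reg (c + 1))}
    {F5 : Frag k (Reg (c + 1) × Reg b × Reg f) (Reg c × Reg b × Reg f)}
    (h1 : Does F1 (ProcRel d (w ++ [false]) (fun z x y => T.before c x z = y))
      (fun I v => v.Correct I D))
    (h2 : Does F2 (ProcRel d (w ++ [true]) (fun z x y => T.before f x z = y))
      (fun I v => v.Correct I D))
    (h4 : Does F4 (ProcRel d (w ++ [true]) (fun y x z => T.after f x z = y))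
      (fun I v => v.Correct I D))
    (h5 : Does F5 (ProcRel d (w ++ [false]) (fun y x z => T.after c x z = y))
      (fun I v => v.Correct I D)) :
    ∃ F : Frag k (Reg a × Reg c × Reg f) (Reg b × Reg c × Reg f),
      Does F (ProcRel (d + 1) w P) (fun I v => v.Correct I D) ∧
        F.card = F1.card + (F2.card + (Fintype.card (Mid k Reg a c f) + (F4.card + F5.card))) := by
  have h1' := h1.congr (fun x : Reg a × Reg c × Reg f => (x.2.1, x.1, x.2.2))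
    (fun y : Reg (c + 1) × Reg a × Reg f => y)
  have h2' := h2.congr (fun x : Reg (c + 1) × Reg a × Reg f => (x.2.2, x.2.1, x.1))
    (fun y : Reg (f + 1) × Reg a × Reg (c + 1) => y)
  have h5' := h5.congr (fun x : Reg f × Reg b × Reg (c + 1) => (x.2.2, x.2.1, x.1))
    (fun y : Reg b × Reg c × Reg f => (y.2.1, y.1, y.2.2))
  refine ⟨_, Does.five (T := Mid k Reg a c f) (var := fun t => Var.fn w t.2.2.2.1 t.2.2.2.2)
    (inn := fun x t => t.1 = x.2.1 ∧ T.before c t.2.2.2.1 t.2.1 = x.2.2 ∧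
      T.before f t.2.2.2.2 t.2.2.1 = x.1)
    (out := fun t v y => P t.1 v y.2.1 ∧ T.after c t.2.2.2.1 t.2.1 = y.2.2 ∧
      T.after f t.2.2.2.2 t.2.2.1 = y.1) h1' h2' h4 h5' ?_ ?_ ?_, Frag.five_card _ _ _ _ _ _ _⟩
  · rintro I ⟨s, z1, z2⟩ ⟨y1, s1, w2⟩ ⟨y2, s2, y1'⟩ ⟨s3, x1, x2, u, v⟩ ⟨p2, y, p1⟩ ⟨q2, y', p1'⟩
      ⟨y'', q1, q2'⟩ ⟨r1, r2⟩ ⟨r3, r4⟩ ⟨r5, r6, r7⟩ ⟨r8, r9, r10⟩ ⟨r11, r12⟩ ⟨r13, r14⟩
    simp only [Prod.mk.injEq] at r1 r2 r3 r4 r5 r6 r7 r8 r9 r10 r11 r12 r13 r14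
    obtain ⟨rfl, rfl⟩ := r1
    obtain ⟨rfl, rfl⟩ := r3
    obtain ⟨rfl, rfl⟩ := r11
    obtain ⟨rfl, rfl⟩ := r13
    subst r5
    obtain ⟨rfl, rfl, rfl⟩ := T.key' r2 r6 r9 r14
    obtain ⟨rfl, rfl, rfl⟩ := T.key' r4 r7 r10 r12
    refine ⟨⟨rfl, r8⟩, ?_⟩
    have h6 : D - (w.length + 1) = d := by omega
    refine ⟨by omega, ?_, ?_⟩
    · rw [h6]
    · rw [h6]
  · rintro I ⟨s, z1, z2⟩ ⟨y, q1, q2⟩ ⟨r1, r2⟩
    simp only [Prod.mk.injEq] at r1 r2
    obtain ⟨rfl, rfl⟩ := r1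
    exact ⟨(T.before c (I.value d (w ++ [false])) q1, s, q2),
      (T.before f (I.value d (w ++ [true])) q2, s, T.before c (I.value d (w ++ [false])) q1),
      (s, q1, q2, I.value d (w ++ [false]), I.value d (w ++ [true])),
      (T.after f (I.value d (w ++ [true])) q2, y, T.after c (I.value d (w ++ [false])) q1),
      (q2, y, T.after c (I.value d (w ++ [false])) q1),
      ⟨rfl, rfl⟩, ⟨rfl, rfl⟩, ⟨rfl, rfl, rfl⟩, ⟨r2, rfl, rfl⟩, ⟨rfl, rfl⟩, ⟨rfl, rfl⟩⟩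
  · rintro I ⟨s, z1, z2⟩ ⟨g, g1, g2⟩ ⟨y1, s1, w2⟩ ⟨y2, s2, y1'⟩ ⟨s3, x1, x2, u, v⟩ ⟨p2, y, p1⟩
      ⟨q2, y', p1'⟩ ⟨Y1, S1, W2⟩ ⟨Y2, S2, Y1'⟩ ⟨S3, X1, X2, U, V⟩ ⟨P2, Y, P1⟩ ⟨Q2, Y', P1'⟩
      ⟨r1, r2⟩ ⟨r3, r4⟩ ⟨r5, r6, r7⟩ ⟨r8, r9, r10⟩ ⟨r11, r12⟩ ⟨r13, r14⟩
      ⟨R1, R2⟩ ⟨R3, R4⟩ ⟨R5, R6, R7⟩ ⟨R8, R9, R10⟩ ⟨R11, R12⟩ ⟨R13, R14⟩
    simp only [Prod.mk.injEq] at r1 r2 r3 r4 r5 r6 r7 r8 r9 r10 r11 r12 r13 r14
    simp only [Prod.mk.injEq] at R1 R2 R3 R4 R5 R6 R7 R8 R9 R10 R11 R12 R13 R14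
    obtain ⟨rfl, rfl⟩ := r1
    obtain ⟨rfl, rfl⟩ := r3
    obtain ⟨rfl, rfl⟩ := r11
    obtain ⟨rfl, rfl⟩ := r13
    subst r5
    obtain ⟨rfl, rfl, rfl⟩ := T.key' r2 r6 r9 r14
    obtain ⟨rfl, rfl, rfl⟩ := T.key' r4 r7 r10 r12
    obtain ⟨rfl, rfl⟩ := R1
    obtain ⟨rfl, rfl⟩ := R3
    obtain ⟨rfl, rfl⟩ := R11
    obtain ⟨rfl, rfl⟩ := R13
    subst R5
    obtain ⟨rfl, rfl, -⟩ := T.key' R2 R6 R9 R14
    obtain ⟨rfl, rfl, -⟩ := T.key' R4 R7 R10 R12
    obtain rfl := r2.symm.trans R2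
    obtain rfl := r4.symm.trans R4
    obtain rfl := r9.symm.trans R9
    obtain rfl := r10.symm.trans R10
    exact ⟨rfl, rfl, rfl, rfl, rfl⟩

theorem exists_proc [∀ n, Fintype (Reg n)] (T : Pads k Reg) {D K M : ℕ} (hk : 1 ≤ k)
    (hK : ∀ i ≤ M, Fintype.card (Reg i) ≤ K) : ∀ (d : ℕ) (w : List Bool),
    w.length + d = D → ∀ a b c f j : ℕ, a ≤ j → b ≤ j → c ≤ j → f ≤ j → j + d ≤ M →
    ∀ P : Reg a → Fin k → Reg b → Prop,
    ∃ F : Frag k (Reg a × Reg c × Reg f) (Reg b × Reg c × Reg f),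
      Does F (ProcRel d w P) (fun I v => v.Correct I D) ∧
        F.card + K ^ 3 * k ^ 2 ≤ 2 * 4 ^ d * (K ^ 3 * k ^ 2)
  | 0, w, hw, a, b, c, f, j, ha, hb, hc, hf, hj, P =>
    exists_leaf hk hK w hw (by omega) (by omega) (by omega) P
  | d + 1, w, hw, a, b, c, f, j, ha, hb, hc, hf, hj, P => by
    have hl : (w ++ [false]).length + d = D := by
      rw [List.length_append, List.length_singleton]
      omega
    have hr : (w ++ [true]).length + d = D := by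
      rw [List.length_append, List.length_singleton]
      omega
    obtain ⟨F1, h1, c1⟩ := exists_proc T hk hK d (w ++ [false]) hl c (c + 1) a f (j + 1)
      (by omega) (by omega) (by omega) (by omega) (by omega) (fun z x y => T.before c x z = y)
    obtain ⟨F2, h2, c2⟩ := exists_proc T hk hK d (w ++ [true]) hr f (f + 1) a (c + 1) (j + 1)
      (by omega) (by omega) (by omega) (by omega) (by omega) (fun z x y => T.before f x z = y)
    obtain ⟨F4, h4, c4⟩ := exists_proc T hk hK d (w ++ [true]) hr (f + 1) f b (c + 1) (j + 1)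
      (by omega) (by omega) (by omega) (by omega) (by omega) (fun y x z => T.after f x z = y)
    obtain ⟨F5, h5, c5⟩ := exists_proc T hk hK d (w ++ [false]) hl (c + 1) c b f (j + 1)
      (by omega) (by omega) (by omega) (by omega) (by omega) (fun y x z => T.after c x z = y)
    obtain ⟨F, h, hcard⟩ := exists_node T w hw P h1 h2 h4 h5
    refine ⟨F, h, ?_⟩
    have h6 : Fintype.card (Mid k Reg a c f) ≤ K ^ 3 * k ^ 2 :=
      card_mid_le hK (by omega) (by omega) (by omega)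
    have h7 : 2 * 4 ^ (d + 1) * (K ^ 3 * k ^ 2) = 4 * (2 * 4 ^ d * (K ^ 3 * k ^ 2)) := by ring
    rw [hcard, h7]
    omega

end Pool.Agent.J6H84.TEP
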